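import Pool.Agent.Lib.MP_902cec_al.Core2

set_option autoImplicit false

namespace Pool.Agent.Lib.MP_902cec_al

section piv

variable {F : Type*} [Fintype F] [DecidableEq F] [Zero F]

/-- The action of a self-map of `F` on the augmentation submodule, in the standard basis. -/
def piv : Function.End F →* Matrix {a : F // a ≠ 0} {a : F // a ≠ 0} ℤ where
  toFun p := Matrix.of fun c a => (if c.1 = p a.1 then 1 else 0) - (if c.1 = p 0 then 1 else 0)
  map_one' := by
    ext c a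
    have h1 : (1 : Function.End F) a.1 = a.1 := rfl
    have h2 : (1 : Function.End F) 0 = 0 := rfl
    simp [Matrix.one_apply, h1, h2, c.2, Subtype.ext_iff]
  map_mul' p q := by
    ext c a
    have h1 : ∀ t, (p * q) t = p (q t) := fun _ => rfl
    have := Fintype.sum_eq_add_sum_subtype_ne (fun b : F =>
      (((if c.1 = p b then 1 else 0) - (if c.1 = p 0 then 1 else 0)) *
        ((if b = q a.1 then 1 else 0) - (if b = q 0 then 1 else 0)) : ℤ)) 0
    rw [sub_self, zero_mul, zero_add] at this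
    simp only [Matrix.mul_apply, Matrix.of_apply, h1]
    rw [← this]
    simp [mul_sub, Finset.sum_sub_distrib]

lemma piv_apply (p : Function.End F) (c a : {a : F // a ≠ 0}) :
    piv p c a = (if c.1 = p a.1 then 1 else 0) - (if c.1 = p 0 then 1 else 0) := rfl

lemma trace_piv (p : Function.End F) :
    (piv p).trace = ((Finset.univ.filter fun t => p t = t).card : ℤ) - 1 := by
  have := Fintype.sum_eq_add_sum_subtype_ne (fun b : F =>
      (((if b = p b then 1 else 0) - (if b = p 0 then 1 else 0)) : ℤ)) 0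
  rw [sub_self, zero_add] at this
  simp only [Matrix.trace, Matrix.diag_apply, piv_apply]
  rw [← this]
  simp [Finset.sum_sub_distrib, eq_comm]

end piv

/-- Elements of a monoid satisfying the relations of an affine semilinear group. -/
structure Aff {F C : Type*} [Field F] [Group C] (ρ : C →* RingAut F) (Γ : Type*) [Monoid Γ] where
  τ : F → Γ
  σ : Fˣ →* Γ
  γ : C →* Γ
  τ_zero : τ 0 = 1
  τ_add : ∀ a b, τ (a + b) = τ a * τ b
  σ_τ : ∀ c b, σ c * τ b = τ (c * b) * σ c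
  γ_τ : ∀ g b, γ g * τ b = τ (ρ g b) * γ g
  γ_σ : ∀ g c, γ g * σ c = σ (Units.mapEquiv (ρ g).toMulEquiv c) * γ g

namespace Aff

variable {F C : Type*} [Field F] [CommGroup C] {ρ : C →* RingAut F}

/-- Transport along a monoid homomorphism. -/
def map {Γ Γ' : Type*} [Monoid Γ] [Monoid Γ'] (X : Aff ρ Γ) (φ : Γ →* Γ') : Aff ρ Γ' where
  τ a := φ (X.τ a)
  σ := φ.comp X.σ
  γ := φ.comp X.γ
  τ_zero := by rw [X.τ_zero, map_one]
  τ_add a b := by rw [X.τ_add, map_mul]
  σ_τ c b := by simpa using congrArg φ (X.σ_τ c b)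
  γ_τ c b := by simpa using congrArg φ (X.γ_τ c b)
  γ_σ c b := by simpa using congrArg φ (X.γ_σ c b)

variable [Fintype F] [DecidableEq F] {A : Type*} [Ring A] (X : Aff ρ A)

/-- The sum of all translations. -/
def W : A := ∑ b, X.τ b

/-- The sum of all homotheties. -/
def H : A := ∑ c, X.σ c

omit [DecidableEq F] in
lemma τ_W (a : F) : X.τ a * X.W = X.W := by
  rw [W, Finset.mul_sum]
  exact Fintype.sum_equiv (Equiv.addLeft a) _ _ fun b => (X.τ_add a b).symm

omit [DecidableEq F] in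
lemma W_τ (a : F) : X.W * X.τ a = X.W := by
  rw [W, Finset.sum_mul]
  exact Fintype.sum_equiv (Equiv.addRight a) _ _ fun b => (X.τ_add b a).symm

omit [DecidableEq F] in
lemma σ_W (c : Fˣ) : X.σ c * X.W = X.W * X.σ c := by
  rw [W, Finset.mul_sum, Finset.sum_mul]
  exact Fintype.sum_equiv (Equiv.mulLeft₀ (c : F) c.ne_zero) _ _ fun b => X.σ_τ c b

lemma H_W : X.H * X.W = X.W * X.H := by
  simp only [H, Finset.mul_sum, Finset.sum_mul, σ_W]

omit [DecidableEq F] in
lemma γ_W (g : C) : X.γ g * X.W = X.W * X.γ g := by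
  rw [W, Finset.mul_sum, Finset.sum_mul]
  exact Fintype.sum_equiv (ρ g).toEquiv _ _ fun b => X.γ_τ g b

lemma γ_H (g : C) : X.γ g * X.H = X.H * X.γ g := by
  rw [H, Finset.mul_sum, Finset.sum_mul]
  exact Fintype.sum_equiv (Units.mapEquiv (ρ g).toMulEquiv).toEquiv _ _ fun b => X.γ_σ g b

lemma σ_H (c : Fˣ) : X.σ c * X.H = X.H := by
  rw [H, Finset.mul_sum]
  exact Fintype.sum_equiv (Equiv.mulLeft c) _ _ fun b => (map_mul X.σ c b).symm

lemma sum_units {M : Type*} [AddCommGroup M] (φ : F → M) :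
    ∑ c : Fˣ, φ c = ∑ a, φ a - φ 0 := by
  rw [Fintype.sum_eq_add_sum_subtype_ne φ 0, add_sub_cancel_left]
  exact Fintype.sum_equiv unitsEquivNeZero _ _ fun _ => rfl

lemma H_τ_H (s : F) : X.H * X.τ s * X.H =
    if s = 0 then (Fintype.card F : A) * X.H - X.H else X.W * X.H - X.H := by
  have h1 : X.H * X.τ s * X.H = (∑ c : Fˣ, X.τ (c * s)) * X.H := by
    nth_rewrite 1 [H]
    simp only [Finset.sum_mul, X.σ_τ, mul_assoc, σ_H]
  rw [h1, sum_units (fun a => X.τ (a * s)), zero_mul, X.τ_zero, sub_mul, one_mul]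
  split_ifs with h
  · simp [h, X.τ_zero]
  · congr 2
    exact Fintype.sum_equiv (Equiv.mulRight₀ s h) _ _ fun _ => rfl

variable [Algebra ℚ A]

/-- The matrix units. -/
noncomputable def e (a b : F) : A := (Fintype.card F : ℚ)⁻¹ • ((X.τ a - 1) * X.H * X.τ (-b))

/-- The idempotent of the translation subgroup. -/
noncomputable def f : A := (Fintype.card F : ℚ)⁻¹ • X.W

lemma e_zero (b : F) : X.e 0 b = 0 := by simp [e, X.τ_zero]

lemma e_mul (a b c d : F) (hb : b ≠ 0) :
    X.e a b * X.e c d = if b = c then X.e a d else 0 := by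
  have hq : (Fintype.card F : ℚ) ≠ 0 := by exact_mod_cast Fintype.card_ne_zero
  have h1 : (X.τ a - 1) * X.H * X.τ (-b) * ((X.τ c - 1) * X.H * X.τ (-d)) =
      (X.τ a - 1) * (X.H * X.τ (-b + c) * X.H - X.H * X.τ (-b) * X.H) * X.τ (-d) := by
    rw [X.τ_add]; noncomm_ring
  have h2 : (X.τ a - 1) * X.W = 0 := by rw [sub_mul, τ_W, one_mul, sub_self]
  rw [e, e, smul_mul_smul_comm, h1, H_τ_H, H_τ_H, if_neg (neg_ne_zero.2 hb)]
  by_cases h : b = c
  · subst h
    rw [if_pos (neg_add_cancel b), if_pos rfl, sub_sub_sub_cancel_right, mul_sub, ← mul_assoc _ X.W,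
      h2, zero_mul, sub_zero, ← nsmul_eq_mul, ← Nat.cast_smul_eq_nsmul ℚ, mul_smul_comm,
      smul_mul_assoc, smul_smul, mul_assoc _ _ (Fintype.card F : ℚ), inv_mul_cancel₀ hq, mul_one, e]
  · rw [if_neg (fun h' => h (neg_add_eq_zero.1 h')), if_neg h]
    simp

lemma e_f (a b : F) : X.e a b * X.f = 0 := by
  have h2 : (X.τ a - 1) * X.W = 0 := by rw [sub_mul, τ_W, one_mul, sub_self]
  rw [e, f, smul_mul_smul_comm, mul_assoc, τ_W, mul_assoc, H_W, ← mul_assoc, h2, zero_mul,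
    smul_zero]

lemma f_e (a b : F) : X.f * X.e a b = 0 := by
  have h2 : X.W * (X.τ a - 1) = 0 := by rw [mul_sub, W_τ, mul_one, sub_self]
  rw [e, f, smul_mul_smul_comm, ← mul_assoc, ← mul_assoc, h2, zero_mul, zero_mul, smul_zero]

lemma sum_e : X.f + ∑ a : {a : F // a ≠ 0}, X.e a a = 1 := by
  have hq : (Fintype.card F : ℚ) ≠ 0 := by exact_mod_cast Fintype.card_ne_zero
  have h0 := Fintype.sum_eq_add_sum_subtype_ne (fun a : F => X.e a a) 0
  rw [e_zero, zero_add] at h0
  rw [← h0]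
  have h1 : ∀ a, (X.τ a - 1) * X.H * X.τ (-a) =
      ∑ c : Fˣ, (X.τ (a * (1 - c)) - X.τ (a * (-c))) * X.σ c := by
    intro a
    simp only [H, Finset.mul_sum, Finset.sum_mul]
    refine Finset.sum_congr rfl fun c _ => ?_
    rw [mul_assoc, X.σ_τ, ← mul_assoc, sub_mul, one_mul, ← X.τ_add]
    congr 3 <;> ring
  have h2 : ∀ s : F, s ≠ 0 → ∑ a, X.τ (a * s) = X.W := fun s hs =>
    Fintype.sum_equiv (Equiv.mulRight₀ s hs) _ _ fun _ => rfl
  have h3 : ∑ a, (X.τ a - 1) * X.H * X.τ (-a) = (Fintype.card F : ℚ) • (1 : A) - X.W := by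
    simp only [h1]
    rw [Finset.sum_comm, Finset.sum_eq_single 1]
    · rw [← Finset.sum_mul, Finset.sum_sub_distrib, h2 _ (neg_ne_zero.2 (Units.ne_zero 1)),
        map_one, mul_one]
      simp [X.τ_zero, Nat.cast_smul_eq_nsmul]
    · intro c _ hc
      rw [← Finset.sum_mul, Finset.sum_sub_distrib, h2 _ (neg_ne_zero.2 c.ne_zero), h2, sub_self,
        zero_mul]
      intro h
      exact hc (Units.ext (sub_eq_zero.1 h).symm)
    · simp
  simp only [e]
  rw [← Finset.smul_sum, h3, f, ← smul_add, add_sub_cancel, smul_smul, inv_mul_cancel₀ hq, one_smul]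

lemma τ_e (b a d : F) : X.τ b * X.e a d = X.e (a + b) d - X.e b d := by
  rw [e, e, e, mul_smul_comm, ← smul_sub, add_comm a b, X.τ_add]
  congr 1
  noncomm_ring

lemma γ_e (g : C) (a d : F) : X.γ g * X.e a d = X.e (ρ g a) (ρ g d) * X.γ g := by
  rw [e, e, mul_smul_comm, smul_mul_assoc]
  congr 1
  have h1 : X.γ g * (X.τ a - 1) = (X.τ (ρ g a) - 1) * X.γ g := by
    rw [mul_sub, sub_mul, X.γ_τ, mul_one, one_mul]
  rw [← mul_assoc, ← mul_assoc, h1, mul_assoc _ (X.γ g), γ_H, mul_assoc, mul_assoc, X.γ_τ, map_neg]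
  simp only [mul_assoc]

omit [DecidableEq F] in
lemma γ_f (g : C) : X.γ g * X.f = X.f * X.γ g := by
  rw [f, mul_smul_comm, smul_mul_assoc, γ_W]

omit [DecidableEq F] in
lemma τ_f (b : F) : X.τ b * X.f = X.f := by
  rw [f, mul_smul_comm, τ_W]

lemma f_f : X.f * X.f = X.f := by
  have := congrArg (X.f * ·) X.sum_e
  simpa [mul_add, Finset.mul_sum, X.f_e] using this

/-- The modified copy of an element of `C`, which commutes with the matrix units. -/
noncomputable def fl (g : C) : A := (X.f + ∑ d : {a : F // a ≠ 0}, X.e d (ρ g d)) * X.γ g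

lemma e_fl (g : C) (a b : F) (hb : b ≠ 0) : X.e a b * X.fl g = X.e a (ρ g b) * X.γ g := by
  rw [fl, ← mul_assoc, mul_add, e_f, zero_add, Finset.mul_sum, Finset.sum_eq_single ⟨b, hb⟩,
    X.e_mul _ _ _ _ hb, if_pos rfl]
  · intro c _ hc
    rw [X.e_mul _ _ _ _ hb, if_neg fun h => hc (Subtype.ext h.symm)]
  · simp

lemma fl_e (g : C) (a b : F) (ha : a ≠ 0) : X.fl g * X.e a b = X.e a (ρ g b) * X.γ g := by
  rw [fl, mul_assoc, γ_e, ← mul_assoc, add_mul, f_e, zero_add, Finset.sum_mul,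
    Finset.sum_eq_single ⟨a, ha⟩, X.e_mul _ _ _ _ ((map_ne_zero _).2 ha), if_pos rfl]
  · intro c _ hc
    rw [X.e_mul _ _ _ _ ((map_ne_zero _).2 c.2), if_neg fun h => hc (Subtype.ext ((ρ g).injective h))]
  · simp

lemma f_fl (g : C) : X.f * X.fl g = X.f * X.γ g := by
  rw [fl, ← mul_assoc, mul_add, f_f, Finset.mul_sum]
  simp [f_e]

lemma fl_f (g : C) : X.fl g * X.f = X.f * X.γ g := by
  rw [fl, mul_assoc, γ_f, ← mul_assoc, add_mul, f_f, Finset.sum_mul]
  simp [e_f]

/-- `fl` as a homomorphism. -/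
noncomputable def flM : C →* A where
  toFun := X.fl
  map_one' := by
    rw [fl, map_one, map_one, mul_one]
    exact X.sum_e
  map_mul' g h := by
    nth_rewrite 3 [fl]
    rw [← mul_assoc, mul_add, fl_f, Finset.mul_sum,
      Finset.sum_congr rfl fun (d : {a : F // a ≠ 0}) _ => X.fl_e g d (ρ h d) d.2,
      ← Finset.sum_mul, ← add_mul, mul_assoc, ← map_mul, fl, map_mul ρ]
    rfl

variable {P : Type*} [AddCommGroup P] (ι : P →+ F) (hι : ∀ g i, ρ g (ι i) = ι i)

/-- The affine action of the abelian subgroup. -/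
def act : C × Multiplicative P →* Function.End F where
  toFun x := fun t => ρ x.1 t + ι x.2.toAdd
  map_one' := by
    funext t
    change ρ 1 t + ι 0 = t
    simp
  map_mul' x y := by
    funext t
    change ρ (x.1 * y.1) t + ι (x.2.toAdd + y.2.toAdd) =
      ρ x.1 (ρ y.1 t + ι y.2.toAdd) + ι x.2.toAdd
    rw [map_mul, map_add, map_add, hι, add_assoc, add_comm (ι _)]
    rfl

omit [Fintype F] [DecidableEq F] in
lemma act_apply (x : C × Multiplicative P) (t : F) :
    act ι hι x t = ρ x.1 t + ι x.2.toAdd := rfl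

/-- The abelian subgroup. -/
def dlM {Γ : Type*} [Monoid Γ] (X : Aff ρ Γ) : C × Multiplicative P →* Γ where
  toFun x := X.τ (ι x.2.toAdd) * X.γ x.1
  map_one' := by simp [X.τ_zero]
  map_mul' x y := by
    change X.τ (ι (x.2.toAdd + y.2.toAdd)) * X.γ (x.1 * y.1) = _
    rw [map_add, X.τ_add, map_mul, mul_assoc, mul_assoc, ← mul_assoc (X.γ _), X.γ_τ, hι, mul_assoc]

/-- The abstract system attached to an affine semilinear group. -/
noncomputable def sys : Sys {a : F // a ≠ 0} (C × Multiplicative P) C A where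
  e a b := X.e a b
  f := X.f
  fl := X.flM
  dl := X.dlM ι hι
  pr := MonoidHom.fst _ _
  pi := piv.comp (act ι hι)
  mu a b c d := by simp only [X.e_mul _ _ _ _ b.2, Subtype.ext_iff]
  e_f a b := X.e_f a b
  f_e a b := X.f_e a b
  sum_e := X.sum_e
  e_fl a b g := (X.e_fl g a b b.2).trans (X.fl_e g a b a.2).symm
  dl_eq x := by
    change X.τ (ι x.2.toAdd) * X.γ x.1 = X.f * X.fl x.1 +
      ∑ a, ∑ b, piv (act ι hι x) a b • (X.e a b * X.fl x.1)
    rw [← mul_one (X.γ x.1), ← X.sum_e, mul_add, mul_add, γ_f, ← mul_assoc, τ_f, f_fl,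
      Finset.sum_comm, Finset.mul_sum, Finset.mul_sum]
    congr 1
    refine Finset.sum_congr rfl fun a _ => ?_
    rw [γ_e, ← mul_assoc, τ_e]
    have h0 := Fintype.sum_eq_add_sum_subtype_ne (fun c : F =>
      (((if c = act ι hι x a then 1 else 0) - (if c = act ι hι x 0 then 1 else 0)) : ℤ) •
        (X.e c a * X.fl x.1)) 0
    rw [e_zero, zero_mul, smul_zero, zero_add] at h0
    simp only [piv_apply]
    rw [← h0]
    simp [sub_smul, Finset.sum_sub_distrib, act_apply, X.e_fl _ _ _ a.2, sub_mul]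

lemma e_mem (R : Subring A) (hq : (Fintype.card F : ℚ)⁻¹ • (1 : A) ∈ R) (h1 : ∀ a, X.τ a ∈ R)
    (h2 : ∀ c, X.σ c ∈ R) (a b : F) : X.e a b ∈ R := by
  rw [e, ← one_mul (_ * X.τ (-b)), ← smul_mul_assoc]
  exact mul_mem hq (mul_mem (mul_mem (sub_mem (h1 a) (one_mem _)) (sum_mem fun c _ => h2 c)) (h1 _))

lemma fl_mem (R : Subring A) (hq : (Fintype.card F : ℚ)⁻¹ • (1 : A) ∈ R) (h1 : ∀ a, X.τ a ∈ R)
    (h2 : ∀ c, X.σ c ∈ R) (h3 : ∀ g, X.γ g ∈ R) (g : C) : X.fl g ∈ R := by
  refine mul_mem (add_mem ?_ (sum_mem fun d _ => X.e_mem R hq h1 h2 _ _)) (h3 g)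
  rw [f, ← one_mul X.W, ← smul_mul_assoc]
  exact mul_mem hq (sum_mem fun c _ => h1 c)

end Aff

end Pool.Agent.Lib.MP_902cec_al
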