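import Pool.Agent.Lib.MP_902cec_al.MU

set_option autoImplicit false

namespace Pool.Agent.Lib.MP_902cec_al

open MonoidAlgebra

/-- The abstract data carried by one affine semilinear group inside a ring `A`. -/
structure Sys (I D C A : Type*) [Fintype I] [DecidableEq I] [CommGroup D] [CommGroup C]
    [Ring A] where
  e : I → I → A
  f : A
  fl : C →* A
  dl : D →* A
  pr : D →* C
  pi : D →* Matrix I I ℤ
  mu : IsMU e
  e_f : ∀ a b, e a b * f = 0
  f_e : ∀ a b, f * e a b = 0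
  sum_e : f + ∑ a, e a a = 1
  e_fl : ∀ a b g, Commute (e a b) (fl g)
  dl_eq : ∀ d, dl d = f * fl (pr d) + ∑ a, ∑ b, pi d a b • (e a b * fl (pr d))

variable {I J D E C A : Type*} [Fintype I] [DecidableEq I] [Fintype J] [DecidableEq J]
  [CommGroup D] [CommGroup E] [CommGroup C] [Ring A]

namespace Sys

lemma f_eq (X : Sys I D C A) : X.f = 1 - ∑ a, X.e a a := eq_sub_of_add_eq X.sum_e

lemma commute_f (X : Sys I D C A) {z : A} (h : ∀ a b, Commute z (X.e a b)) : Commute z X.f := by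
  rw [X.f_eq]
  exact (Commute.one_right z).sub_right (Commute.sum_right _ _ _ fun a _ => h a a)

lemma f_f (X : Sys I D C A) : X.f * X.f = X.f := by
  have := congrArg (X.f * ·) X.sum_e
  simpa [mul_add, Finset.mul_sum, X.f_e] using this

lemma fl_f (X : Sys I D C A) (g : C) : Commute (X.fl g) X.f :=
  X.commute_f fun a b => (X.e_fl a b g).symm

lemma commute_dl (X : Sys I D C A) {z : A} (h : ∀ a b, Commute z (X.e a b))
    (h' : ∀ g, Commute z (X.fl g)) (d : D) : Commute z (X.dl d) := by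
  rw [X.dl_eq]
  exact ((X.commute_f h).mul_right (h' _)).add_right (Commute.sum_right _ _ _ fun a _ =>
    Commute.sum_right _ _ _ fun b _ => ((h a b).mul_right (h' _)).smul_right _)

/-- Transport along a ring homomorphism. -/
def map {A' : Type*} [Ring A'] (X : Sys I D C A) (φ : A →+* A') : Sys I D C A' where
  e a b := φ (X.e a b)
  f := φ X.f
  fl := φ.toMonoidHom.comp X.fl
  dl := φ.toMonoidHom.comp X.dl
  pr := X.pr
  pi := X.pi
  mu a b c d := by rw [← map_mul, X.mu]; split_ifs <;> simp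
  e_f a b := by rw [← map_mul, X.e_f, map_zero]
  f_e a b := by rw [← map_mul, X.f_e, map_zero]
  sum_e := by rw [← map_sum, ← map_add, X.sum_e, map_one]
  e_fl a b g := (X.e_fl a b g).map φ
  dl_eq d := by
    change φ (X.dl d) = _
    rw [X.dl_eq]
    simp

end Sys

/-- Two systems commute. -/
structure Comm (X : Sys I D C A) (Y : Sys J E C A) : Prop where
  ee : ∀ a b c d, Commute (X.e a b) (Y.e c d)
  el : ∀ a b g, Commute (X.e a b) (Y.fl g)
  le : ∀ g c d, Commute (X.fl g) (Y.e c d)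
  ll : ∀ g h, Commute (X.fl g) (Y.fl h)

namespace Comm

variable {X : Sys I D C A} {Y : Sys J E C A}

lemma symm (h : Comm X Y) : Comm Y X :=
  ⟨fun a b c d => (h.ee c d a b).symm, fun a b g => (h.le g a b).symm,
    fun g c d => (h.el c d g).symm, fun g k => (h.ll k g).symm⟩

lemma ef (h : Comm X Y) (a b : I) : Commute (X.e a b) Y.f := Y.commute_f (h.ee a b)
lemma lf (h : Comm X Y) (g : C) : Commute (X.fl g) Y.f := Y.commute_f (h.le g)
lemma fe (h : Comm X Y) (c d : J) : Commute X.f (Y.e c d) := (h.symm.ef c d).symm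
lemma fl (h : Comm X Y) (g : C) : Commute X.f (Y.fl g) := (h.symm.lf g).symm
lemma ff (h : Comm X Y) : Commute X.f Y.f := Y.commute_f h.fe
lemma de (h : Comm X Y) (x : D) (c d : J) : Commute (X.dl x) (Y.e c d) :=
  (X.commute_dl (h.symm.ee c d) (h.symm.el c d) x).symm
lemma dl (h : Comm X Y) (x : D) (g : C) : Commute (X.dl x) (Y.fl g) :=
  (X.commute_dl (h.symm.le g) (h.symm.ll g) x).symm
lemma dd (h : Comm X Y) (x : D) (y : E) : Commute (X.dl x) (Y.dl y) :=
  Y.commute_dl (h.de x) (h.dl x) y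

/-- The group homomorphism behind `th`. -/
def thM (h : Comm X Y) : D →* A where
  toFun x := X.dl x * Y.fl (X.pr x)
  map_one' := by simp
  map_mul' x y := by
    simp only [map_mul]
    exact ((h.dl y (X.pr x)).symm.mul_mul_mul_comm _ _).symm

/-- The homomorphism from the integral group ring of `D`. -/
noncomputable def th (h : Comm X Y) : MonoidAlgebra ℤ D →+* A := zlift h.thM

lemma th_of (h : Comm X Y) (x : D) : h.th (of ℤ D x) = X.dl x * Y.fl (X.pr x) := zlift_of _ _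

lemma e_th (h : Comm X Y) (c d : J) (s : MonoidAlgebra ℤ D) : Commute (Y.e c d) (h.th s) :=
  zlift_commute _ _ (fun x => (h.de x c d).symm.mul_right (Y.e_fl c d _)) s

lemma th_f (h : Comm X Y) (s : MonoidAlgebra ℤ D) : Commute (h.th s) Y.f :=
  Y.commute_f fun c d => (h.e_th c d s).symm

/-- The local unit. -/
noncomputable def uu (h : Comm X Y) (s : MonoidAlgebra ℤ D)
    (U : Matrix J J (MonoidAlgebra ℤ D)) : A :=
  h.th s * Y.f + ph Y.e h.th U

lemma uu_mul (h : Comm X Y) (s s' : MonoidAlgebra ℤ D) (U U' : Matrix J J (MonoidAlgebra ℤ D)) :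
    h.uu (s * s') (U * U') = h.uu s U * h.uu s' U' := by
  have h1 : ph Y.e h.th (U * U') = ph Y.e h.th U * ph Y.e h.th U' :=
    map_mul (phi Y.e Y.mu h.th h.e_th) U U'
  have h2 : Y.f * ph Y.e h.th U' = 0 := mul_ph_eq_zero _ _ Y.f_e _
  have h3 : ph Y.e h.th U * Y.f = 0 := ph_mul_eq_zero _ _ h.e_th Y.e_f _
  unfold uu
  rw [h1, add_mul, mul_add, mul_add, mul_assoc _ Y.f (ph _ _ _), h2, (h.th_f s').eq,
    ← mul_assoc (ph _ _ _), h3, ← (h.th_f s').eq, ((h.th_f s').symm.mul_mul_mul_comm _ _),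
    Y.f_f, map_mul]
  simp

lemma uu_one (h : Comm X Y) : h.uu 1 1 = 1 := by
  rw [uu, map_one, one_mul, ph_one, Y.sum_e]

lemma uu_pow (h : Comm X Y) (s : MonoidAlgebra ℤ D) (U : Matrix J J (MonoidAlgebra ℤ D)) (n : ℕ) :
    h.uu s U ^ n = h.uu (s ^ n) (U ^ n) := by
  induction n with
  | zero => simp [uu_one]
  | succ n ih => rw [pow_succ, pow_succ, pow_succ, uu_mul, ih]

lemma uu_mem (h : Comm X Y) (R : Subring A) (h1 : ∀ x, X.dl x ∈ R) (h2 : ∀ g, Y.fl g ∈ R)
    (h3 : ∀ c d, Y.e c d ∈ R) (s : MonoidAlgebra ℤ D)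
    (U : Matrix J J (MonoidAlgebra ℤ D)) : h.uu s U ∈ R := by
  have h4 : ∀ s, h.th s ∈ R := zlift_mem _ R fun x => mul_mem (h1 x) (h2 _)
  have h5 : Y.f ∈ R := by
    rw [Y.f_eq]; exact sub_mem (one_mem _) (sum_mem fun a _ => h3 a a)
  exact add_mem (mul_mem (h4 s) h5) (ph_mem _ _ R h3 h4 U)

lemma dl_mul_dl (h : Comm X Y) (x : D) (y : E) (hxy : X.pr x = Y.pr y) :
    X.dl x * Y.dl y = h.uu (of ℤ D x) (Matrix.of fun c d => Y.pi y c d • of ℤ D x) := by
  rw [Y.dl_eq, uu, ph, th_of, mul_add, hxy, mul_assoc, (Y.fl_f _).eq]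
  congr 1
  simp only [Finset.mul_sum, Matrix.of_apply, map_zsmul, th_of, mul_smul_comm, hxy]
  refine Finset.sum_congr rfl fun c _ => Finset.sum_congr rfl fun d _ => ?_
  rw [← mul_assoc, (h.de x c d).eq, mul_assoc]

section trace

variable {N : Type*} [AddCommGroup N] (T : A →+ N) (hT : ∀ x y, T (x * y) = T (y * x))
include hT

lemma trace_uu (h : Comm X Y) (j : J) (s : MonoidAlgebra ℤ D)
    (U : Matrix J J (MonoidAlgebra ℤ D)) :
    T (h.uu s U) = T (h.th s * Y.f) + T (Y.e j j * h.th U.trace) := by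
  rw [uu, map_add, trace_ph _ Y.mu _ h.e_th T hT j]

lemma trace_dl (h : Comm X Y) (j : J) (x : D) (y : E) (hxy : X.pr x = Y.pr y) :
    T (X.dl x * Y.dl y) =
      T (h.th (of ℤ D x) * Y.f) + (Y.pi y).trace • T (Y.e j j * h.th (of ℤ D x)) := by
  rw [h.dl_mul_dl x y hxy, h.trace_uu T hT j]
  congr 1
  rw [← map_zsmul, ← mul_smul_comm, ← map_zsmul]
  congr 3
  simp [Matrix.trace, Finset.sum_smul]

theorem trace_formula (h : Comm X Y) (j : J) (g x x' : D) (k y y' : E) (hgk : X.pr g = Y.pr k)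
    (hxy : X.pr x = Y.pr y) (hx : X.pr x' = X.pr x) (hy : Y.pr y' = Y.pr y)
    (U : Matrix J J (MonoidAlgebra ℤ D)) (m : ℤ)
    (hU : U.trace = (Y.pi k).trace • of ℤ D g +
      (m * ((Y.pi y).trace - (Y.pi y').trace)) • (of ℤ D x - of ℤ D x')) :
    T (h.uu (of ℤ D g) U) = T (X.dl g * Y.dl k) +
      m • (T (X.dl x * Y.dl y) - T (X.dl x * Y.dl y') - T (X.dl x' * Y.dl y) +
        T (X.dl x' * Y.dl y')) := by
  rw [h.trace_uu T hT j, h.trace_dl T hT j g k hgk, h.trace_dl T hT j x y hxy,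
    h.trace_dl T hT j x y' (hxy.trans hy.symm), h.trace_dl T hT j x' y (hx.trans hxy),
    h.trace_dl T hT j x' y' ((hx.trans hxy).trans hy.symm), hU]
  simp only [map_add, map_sub, map_zsmul, mul_add, mul_sub, mul_smul_comm]
  module

end trace

end Comm

end Pool.Agent.Lib.MP_902cec_al
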