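import Pool.Agent.Lib.MP_902cec_al.Core

set_option autoImplicit false

namespace Pool.Agent.Lib.MP_902cec_al

open MonoidAlgebra

variable {I J D E C A : Type*} [Fintype I] [DecidableEq I] [Fintype J] [DecidableEq J]
  [CommGroup D] [CommGroup E] [CommGroup C] [Ring A]

namespace Sys

/-- The projection of the integral group ring of `D` to the rational group ring of `C`. -/
noncomputable def bar (X : Sys I D C A) : MonoidAlgebra ℤ D →+* MonoidAlgebra ℚ C :=
  zlift ((of ℚ C).comp X.pr)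

lemma bar_of (X : Sys I D C A) (x : D) : X.bar (of ℤ D x) = of ℚ C (X.pr x) := zlift_of _ _

/-- The group homomorphism behind `piM`. -/
noncomputable def piG (X : Sys I D C A) : D →* Matrix I I (MonoidAlgebra ℚ C) where
  toFun x := of ℚ C (X.pr x) • (Int.castRingHom _).mapMatrix (X.pi x)
  map_one' := by simp only [map_one, one_smul]
  map_mul' x y := by
    simp only [map_mul]
    rw [smul_mul_smul_comm]

/-- The matrix representation of the integral group ring of `D`. -/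
noncomputable def piM (X : Sys I D C A) :
    MonoidAlgebra ℤ D →+* Matrix I I (MonoidAlgebra ℚ C) := zlift X.piG

lemma piM_of (X : Sys I D C A) (x : D) (a b : I) :
    X.piM (of ℤ D x) a b = X.pi x a b • of ℚ C (X.pr x) := by
  rw [piM, zlift_of, zsmul_eq_mul, mul_comm]
  rfl

lemma trace_piM_of (X : Sys I D C A) (x : D) :
    (X.piM (of ℤ D x)).trace = (X.pi x).trace • of ℚ C (X.pr x) := by
  simp only [Matrix.trace, Matrix.diag_apply, piM_of, Finset.sum_smul]

/-- The block matrix construction. -/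
noncomputable def psi (X : Sys I D C A) (J : Type*) [Fintype J] [DecidableEq J] :
    Matrix J J (MonoidAlgebra ℤ D) →+* Matrix (J × I) (J × I) (MonoidAlgebra ℚ C) :=
  (Matrix.compRingEquiv J I _).toRingHom.comp X.piM.mapMatrix

lemma psi_apply (X : Sys I D C A) (U : Matrix J J (MonoidAlgebra ℤ D)) (p q : J × I) :
    X.psi J U p q = X.piM (U p.1 q.1) p.2 q.2 := rfl

lemma trace_psi (X : Sys I D C A) (U : Matrix J J (MonoidAlgebra ℤ D)) :
    (X.psi J U).trace = (X.piM U.trace).trace := by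
  simp only [Matrix.trace, Matrix.diag_apply, psi_apply, Fintype.sum_prod_type, map_sum,
    Matrix.sum_apply]
  exact Finset.sum_comm

end Sys

variable [Algebra ℚ A]

namespace Comm

variable {X : Sys I D C A} {Y : Sys J E C A}

/-- The group homomorphism behind `ts`. -/
def tsM (h : Comm X Y) : C →* A where
  toFun g := X.fl g * Y.fl g
  map_one' := by simp
  map_mul' x y := by
    simp only [map_mul]
    exact ((h.ll y x).symm.mul_mul_mul_comm _ _).symm

/-- The homomorphism from the rational group ring of `C`. -/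
noncomputable def ts (h : Comm X Y) : MonoidAlgebra ℚ C →+* A :=
  (MonoidAlgebra.lift ℚ A C h.tsM).toRingHom

lemma ts_of (h : Comm X Y) (g : C) : h.ts (of ℚ C g) = X.fl g * Y.fl g :=
  MonoidAlgebra.lift_of _ _

lemma ts_symm (h : Comm X Y) : h.symm.ts = h.ts := by
  have : h.symm.tsM = h.tsM := MonoidHom.ext fun g => (h.ll g g).eq.symm
  rw [ts, ts, this]

lemma commute_ts (h : Comm X Y) {z : A} (h1 : ∀ g, Commute z (X.fl g))
    (h2 : ∀ g, Commute z (Y.fl g)) (s : MonoidAlgebra ℚ C) : Commute z (h.ts s) := by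
  induction s using MonoidAlgebra.induction_on with
  | of g => rw [ts_of]; exact (h1 g).mul_right (h2 g)
  | add x y hx hy => rw [map_add]; exact hx.add_right hy
  | smul r x hx =>
    have : h.ts (r • x) = r • h.ts x := map_smul (MonoidAlgebra.lift ℚ A C h.tsM) r x
    rw [this]; exact hx.smul_right _

lemma e_ts (h : Comm X Y) (a b : I) (s : MonoidAlgebra ℚ C) : Commute (X.e a b) (h.ts s) :=
  h.commute_ts (X.e_fl a b) (h.el a b) s

lemma e_ts' (h : Comm X Y) (c d : J) (s : MonoidAlgebra ℚ C) : Commute (Y.e c d) (h.ts s) :=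
  h.commute_ts (fun g => (h.le g c d).symm) (Y.e_fl c d) s

lemma f_ts (h : Comm X Y) (s : MonoidAlgebra ℚ C) : Commute X.f (h.ts s) :=
  (X.commute_f fun a b => (h.e_ts a b s).symm).symm

lemma f_ts' (h : Comm X Y) (s : MonoidAlgebra ℚ C) : Commute Y.f (h.ts s) :=
  (Y.commute_f fun a b => (h.e_ts' a b s).symm).symm

lemma th_eq (h : Comm X Y) (s : MonoidAlgebra ℤ D) :
    h.th s = X.f * h.ts (X.bar s) + ph X.e h.ts (X.piM s) := by
  refine zadd_ext h.th.toAddMonoidHom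
    ((AddMonoidHom.mulLeft X.f).comp (h.ts.comp X.bar).toAddMonoidHom +
      (phi X.e X.mu h.ts h.e_ts : _ →+ _).comp X.piM.toAddMonoidHom) (fun x => ?_) s
  change h.th _ = X.f * h.ts (X.bar _) + ph X.e h.ts (X.piM _)
  rw [th_of, X.dl_eq, Sys.bar_of, ts_of, add_mul, mul_assoc, ph]
  simp only [Sys.piM_of, map_zsmul, ts_of, Finset.sum_mul, smul_mul_assoc, mul_smul_comm,
    mul_assoc]

lemma uu_eq (h : Comm X Y) (s : MonoidAlgebra ℤ D) (U : Matrix J J (MonoidAlgebra ℤ D)) :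
    h.uu s U = X.f * Y.f * h.ts (X.bar s) + ph (fun a b => X.e a b * Y.f) h.ts (X.piM s) +
      ph (fun c d => X.f * Y.e c d) h.ts (X.bar.mapMatrix U) +
      ph (fun p q : J × I => X.e p.2 q.2 * Y.e p.1 q.1) h.ts (X.psi J U) := by
  rw [uu, th_eq, add_mul, add_assoc _ (ph _ _ (X.bar.mapMatrix U))]
  congr 1
  · congr 1
    · rw [mul_assoc, mul_assoc, (h.f_ts' _).eq]
    · simp only [ph, Finset.sum_mul, mul_assoc, (h.f_ts' _).eq]
  · simp only [ph, th_eq, mul_add, Finset.sum_add_distrib, Fintype.sum_prod_type, Sys.psi_apply,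
      Finset.mul_sum, RingHom.mapMatrix_apply, Matrix.map_apply]
    congr 1
    · simp only [← mul_assoc, (h.fe _ _).eq]
    · refine Finset.sum_congr rfl fun c _ => ?_
      rw [Finset.sum_comm]
      simp only [← mul_assoc, (h.ee _ _ _ _).eq]

omit [Algebra ℚ A] in
lemma mu10 (h : Comm X Y) : IsMU fun a b => X.e a b * Y.f := by
  intro a b c d
  rw [(h.ef c d).symm.mul_mul_mul_comm, Y.f_f, X.mu]
  split_ifs <;> simp

omit [Algebra ℚ A] in
lemma mu01 (h : Comm X Y) : IsMU fun c d => X.f * Y.e c d := by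
  intro a b c d
  rw [(h.fe a b).symm.mul_mul_mul_comm, X.f_f, Y.mu]
  split_ifs <;> simp

omit [Algebra ℚ A] in
lemma mu11 (h : Comm X Y) : IsMU fun p q : J × I => X.e p.2 q.2 * Y.e p.1 q.1 := by
  intro a b c d
  rw [(h.ee _ _ _ _).symm.mul_mul_mul_comm, X.mu, Y.mu]
  by_cases h1 : b.1 = c.1 <;> by_cases h2 : b.2 = c.2 <;> simp [h1, h2, Prod.ext_iff]

lemma step {K : Type*} [Fintype K] [DecidableEq K] (h : Comm X Y) (e : K → K → A) (he : IsMU e)
    (hc : ∀ a b s, Commute (e a b) (h.ts s)) (z : A) (h1 : ∀ a b, z * e a b = 0)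
    (h2 : ∀ a b, e a b * z = 0) {M M' : Matrix K K (MonoidAlgebra ℚ C)} (hM : EConj M M') :
    EConj (z + ph e h.ts M) (z + ph e h.ts M') :=
  EConj.nu (phi e he h.ts hc) z (fun N => mul_ph_eq_zero _ _ h1 N)
    (fun N => ph_mul_eq_zero _ _ hc h2 N) hM

theorem econj_three (h : Comm X Y) (s : MonoidAlgebra ℚ C)
    {M₁ M₁' : Matrix I I (MonoidAlgebra ℚ C)} {M₂ M₂' : Matrix J J (MonoidAlgebra ℚ C)}
    {M₃ M₃' : Matrix (J × I) (J × I) (MonoidAlgebra ℚ C)} (h₁ : EConj M₁ M₁')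
    (h₂ : EConj M₂ M₂') (h₃ : EConj M₃ M₃') :
    EConj (X.f * Y.f * h.ts s + ph (fun a b => X.e a b * Y.f) h.ts M₁ +
      ph (fun c d => X.f * Y.e c d) h.ts M₂ +
      ph (fun p q : J × I => X.e p.2 q.2 * Y.e p.1 q.1) h.ts M₃)
      (X.f * Y.f * h.ts s + ph (fun a b => X.e a b * Y.f) h.ts M₁' +
      ph (fun c d => X.f * Y.e c d) h.ts M₂' +
      ph (fun p q : J × I => X.e p.2 q.2 * Y.e p.1 q.1) h.ts M₃') := by
  have c1 : ∀ a b s, Commute (X.e a b * Y.f) (h.ts s) :=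
    fun a b s => (h.e_ts a b s).mul_left (h.f_ts' s)
  have c2 : ∀ a b s, Commute (X.f * Y.e a b) (h.ts s) :=
    fun a b s => (h.f_ts s).mul_left (h.e_ts' a b s)
  have c3 : ∀ (p q : J × I) s, Commute (X.e p.2 q.2 * Y.e p.1 q.1) (h.ts s) :=
    fun a b s => (h.e_ts _ _ s).mul_left (h.e_ts' _ _ s)
  have c0 : ∀ s, Commute (X.f * Y.f) (h.ts s) := fun s => (h.f_ts s).mul_left (h.f_ts' s)
  -- orthogonality relations
  have o01 : ∀ a b, X.f * Y.f * (X.e a b * Y.f) = 0 := fun a b => by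
    rw [(h.ef a b).symm.mul_mul_mul_comm, X.f_e, zero_mul]
  have o10 : ∀ a b, X.e a b * Y.f * (X.f * Y.f) = 0 := fun a b => by
    rw [h.ff.symm.mul_mul_mul_comm, X.e_f, zero_mul]
  have o02 : ∀ a b, X.f * Y.f * (X.f * Y.e a b) = 0 := fun a b => by
    rw [h.ff.symm.mul_mul_mul_comm, Y.f_e, mul_zero]
  have o20 : ∀ a b, X.f * Y.e a b * (X.f * Y.f) = 0 := fun a b => by
    rw [(h.fe a b).symm.mul_mul_mul_comm, Y.e_f, mul_zero]
  have o03 : ∀ a b c d, X.f * Y.f * (X.e a b * Y.e c d) = 0 := fun a b c d => by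
    rw [(h.ef a b).symm.mul_mul_mul_comm, X.f_e, zero_mul]
  have o30 : ∀ a b c d, X.e a b * Y.e c d * (X.f * Y.f) = 0 := fun a b c d => by
    rw [(h.fe c d).symm.mul_mul_mul_comm, X.e_f, zero_mul]
  have o12 : ∀ a b c d, X.e a b * Y.f * (X.f * Y.e c d) = 0 := fun a b c d => by
    rw [h.ff.symm.mul_mul_mul_comm, X.e_f, zero_mul]
  have o21 : ∀ a b c d, X.f * Y.e c d * (X.e a b * Y.f) = 0 := fun a b c d => by
    rw [(h.ee a b c d).symm.mul_mul_mul_comm, X.f_e, zero_mul]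
  have o13 : ∀ a b a' b' c d, X.e a b * Y.f * (X.e a' b' * Y.e c d) = 0 := fun a b a' b' c d => by
    rw [(h.ef a' b').symm.mul_mul_mul_comm, Y.f_e, mul_zero]
  have o31 : ∀ a b a' b' c d, X.e a' b' * Y.e c d * (X.e a b * Y.f) = 0 := fun a b a' b' c d => by
    rw [(h.ee a b c d).symm.mul_mul_mul_comm, Y.e_f, mul_zero]
  have o23 : ∀ a b c d c' d', X.f * Y.e c d * (X.e a b * Y.e c' d') = 0 := fun a b c d c' d' => by
    rw [(h.ee a b c d).symm.mul_mul_mul_comm, X.f_e, zero_mul]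
  have o32 : ∀ a b c d c' d', X.e a b * Y.e c' d' * (X.f * Y.e c d) = 0 := fun a b c d c' d' => by
    rw [(h.fe c' d').symm.mul_mul_mul_comm, X.e_f, zero_mul]
  have z1 : ∀ w, X.f * Y.f * w = 0 → X.f * Y.f * h.ts s * w = 0 := fun w hw => by
    rw [(c0 s).eq, mul_assoc, hw, mul_zero]
  have z2 : ∀ w, w * (X.f * Y.f) = 0 → w * (X.f * Y.f * h.ts s) = 0 := fun w hw => by
    rw [← mul_assoc, hw, zero_mul]
  refine EConj.trans (h.step _ h.mu11 c3 _ (fun p q => ?_) (fun p q => ?_) h₃) ?_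
  · rw [add_mul, add_mul, z1 _ (o03 _ _ _ _), ph_mul_eq_zero _ _ c1 (fun a b => o13 _ _ _ _ _ _),
      ph_mul_eq_zero _ _ c2 (fun a b => o23 _ _ _ _ _ _), add_zero, add_zero]
  · rw [mul_add, mul_add, z2 _ (o30 _ _ _ _), mul_ph_eq_zero _ _ (fun a b => o31 _ _ _ _ _ _),
      mul_ph_eq_zero _ _ (fun a b => o32 _ _ _ _ _ _), add_zero, add_zero]
  rw [add_right_comm _ (ph _ _ M₂), add_right_comm _ (ph _ _ M₂')]
  refine EConj.trans (h.step _ h.mu01 c2 _ (fun p q => ?_) (fun p q => ?_) h₂) ?_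
  · rw [add_mul, add_mul, z1 _ (o02 _ _), ph_mul_eq_zero _ _ c1 (fun a b => o12 _ _ _ _),
      ph_mul_eq_zero _ _ c3 (fun a b => o32 _ _ _ _ _ _), add_zero, add_zero]
  · rw [mul_add, mul_add, z2 _ (o20 _ _), mul_ph_eq_zero _ _ (fun a b => o21 _ _ _ _),
      mul_ph_eq_zero _ _ (fun a b => o23 _ _ _ _ _ _), add_zero, add_zero]
  rw [add_right_comm _ (ph _ _ M₁), add_right_comm _ (ph _ _ M₁), add_right_comm _ (ph _ _ M₁'),
    add_right_comm _ (ph _ _ M₁')]
  refine h.step _ h.mu10 c1 _ (fun p q => ?_) (fun p q => ?_) h₁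
  · rw [add_mul, add_mul, z1 _ (o01 _ _), ph_mul_eq_zero _ _ c2 (fun a b => o21 _ _ _ _),
      ph_mul_eq_zero _ _ c3 (fun a b => o31 _ _ _ _ _ _), add_zero, add_zero]
  · rw [mul_add, mul_add, z2 _ (o10 _ _), mul_ph_eq_zero _ _ (fun a b => o12 _ _ _ _),
      mul_ph_eq_zero _ _ (fun a b => o13 _ _ _ _ _ _), add_zero, add_zero]

theorem econj_uu [Finite C] (h : Comm X Y) (m : ℕ) [NeZero m] (g x : D) (x' : ℕ → D) (k y : E)
    (y' : ℕ → E) (hgk : X.pr g = Y.pr k) (hxy : X.pr x = Y.pr y) (hx : ∀ n, X.pr (x' n) = X.pr x)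
    (hy : ∀ n, Y.pr (y' n) = Y.pr y) (hg : g ^ m = 1) (hk : k ^ m = 1)
    (U : Matrix J J (MonoidAlgebra ℤ D)) (V : Matrix I I (MonoidAlgebra ℤ E))
    (hU : U ^ m = 1) (hV : V ^ m = 1) (c c' : ℕ → ℤ)
    (tU : ∀ n, (U ^ n).trace = (Y.pi (k ^ n)).trace • of ℤ D (g ^ n) +
      c n • (of ℤ D x - of ℤ D (x' n)))
    (tV : ∀ n, (V ^ n).trace = (X.pi (g ^ n)).trace • of ℤ E (k ^ n) +
      c' n • (of ℤ E y - of ℤ E (y' n)))
    (hcc : ∀ n, c n * ((X.pi x).trace - (X.pi (x' n)).trace) =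
      c' n * ((Y.pi y).trace - (Y.pi (y' n)).trace))
    (i₀ i₁ : I) (j₀ : J) (bU : ∀ j, j ≠ j₀ → U j₀ j = 0 ∧ U j j₀ = 0) (bU' : U j₀ j₀ = of ℤ D x)
    (bV : ∀ i, i ≠ i₀ → V i₀ i = 0 ∧ V i i₀ = 0)
    (bx : ∀ i, i ≠ i₁ → X.pi x i₁ i = 0 ∧ X.pi x i i₁ = 0) :
    EConj (h.uu (of ℤ D g) U) (h.symm.uu (of ℤ E k) V) := by
  have : NeZero (Nat.card C : ℚ) := ⟨by exact_mod_cast (Nat.card_pos (α := C)).ne'⟩
  let sw : Matrix (I × J) (I × J) (MonoidAlgebra ℚ C) ≃+*
      Matrix (J × I) (J × I) (MonoidAlgebra ℚ C) :=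
    (Matrix.reindexAlgEquiv ℤ _ (Equiv.prodComm I J)).toRingEquiv
  have hsw : ∀ M p q, sw M p q = M p.swap q.swap := fun _ _ _ => rfl
  have e2 : h.symm.uu (of ℤ E k) V = X.f * Y.f * h.ts (X.bar (of ℤ D g)) +
      ph (fun a b => X.e a b * Y.f) h.ts (Y.bar.mapMatrix V) +
      ph (fun c d => X.f * Y.e c d) h.ts (Y.piM (of ℤ E k)) +
      ph (fun p q : J × I => X.e p.2 q.2 * Y.e p.1 q.1) h.ts (sw (Y.psi I V)) := by
    rw [uu_eq, h.ts_symm, add_right_comm _ (ph _ _ (Y.piM _)), Sys.bar_of, Sys.bar_of, hgk, h.ff.eq]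
    simp only [(h.ef _ _).eq, (h.fe _ _).eq, (h.ee _ _ _ _).eq]
    congr 1
    unfold ph
    refine Fintype.sum_equiv (Equiv.prodComm I J) _ _ fun p => ?_
    exact Fintype.sum_equiv (Equiv.prodComm I J) _ _ fun q => rfl
  rw [uu_eq, e2]
  refine h.econj_three _ (EConj.symm ?_) ?_ ?_
  · refine econj_semisimple m _ _ (by rw [← map_pow, hV, map_one])
      (by rw [← map_pow, ← map_pow, hg, map_one, map_one]) (fun n => ?_) i₀ (fun i hi => ?_)
    · rw [← map_pow, ← map_pow, ← map_pow, RingHom.mapMatrix_apply, ← AddMonoidHom.map_trace, tV,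
        Sys.trace_piM_of]
      simp only [map_add, map_sub, map_zsmul, Sys.bar_of, hy, sub_self, smul_zero, add_zero,
        map_pow, hgk]
    · simp [(bV i hi).1, (bV i hi).2]
  · refine econj_semisimple m _ _ (by rw [← map_pow, hU, map_one])
      (by rw [← map_pow, ← map_pow, hk, map_one, map_one]) (fun n => ?_) j₀ (fun j hj => ?_)
    · rw [← map_pow, ← map_pow, ← map_pow, RingHom.mapMatrix_apply, ← AddMonoidHom.map_trace, tU,
        Sys.trace_piM_of]
      simp only [map_add, map_sub, map_zsmul, Sys.bar_of, hx, sub_self, smul_zero, add_zero,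
        map_pow, hgk]
    · simp [(bU j hj).1, (bU j hj).2]
  · refine econj_semisimple m _ _ (by rw [← map_pow, hU, map_one])
      (by rw [← map_pow, ← map_pow, hV, map_one, map_one]) (fun n => ?_) (j₀, i₁) (fun p hp => ?_)
    · have hs : ∀ M, (sw M).trace = M.trace := fun M =>
        Fintype.sum_equiv (Equiv.prodComm J I) _ _ fun p => rfl
      rw [← map_pow, ← map_pow, ← map_pow, hs, Sys.trace_psi, Sys.trace_psi, tU, tV]
      simp only [map_add, map_sub, map_zsmul, Matrix.trace_add, Matrix.trace_smul,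
        Matrix.trace_sub, Sys.trace_piM_of, hx, hy, hxy]
      rw [← sub_smul, ← sub_smul, smul_smul, smul_smul, smul_smul, smul_smul, hcc, mul_comm,
        map_pow X.pr, map_pow Y.pr, hgk]
    · obtain ⟨j, i⟩ := p
      simp only [Sys.psi_apply]
      by_cases hj : j = j₀
      · subst hj
        have hi : i ≠ i₁ := fun hi => hp (by rw [hi])
        rw [bU', Sys.piM_of, Sys.piM_of, (bx i hi).1, (bx i hi).2]
        simp
      · simp [(bU j hj).1, (bU j hj).2]

end Comm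

end Pool.Agent.Lib.MP_902cec_al
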