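import Pool.Agent.Lib.MP_902cec_al.Sim

set_option autoImplicit false

namespace Pool.Agent.Lib.MP_902cec_al

/-- Conjugation by one square-zero unipotent. -/
def Step {A : Type*} [Ring A] (a b : A) : Prop :=
  ∃ ν : A, ν * ν = 0 ∧ b = (1 + ν) * a * (1 - ν)

/-- Conjugation by a product of square-zero unipotents. -/
def EConj {A : Type*} [Ring A] (a b : A) : Prop := Relation.ReflTransGen Step a b

namespace EConj

variable {A B : Type*} [Ring A] [Ring B]

lemma refl (a : A) : EConj a a := Relation.ReflTransGen.refl

lemma trans {a b c : A} (h : EConj a b) (h' : EConj b c) : EConj a c :=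
  Relation.ReflTransGen.trans h h'

lemma single {ν : A} (h : ν * ν = 0) (a : A) : EConj a ((1 + ν) * a * (1 - ν)) :=
  Relation.ReflTransGen.single ⟨ν, h, rfl⟩

lemma symm {a b : A} (h : EConj a b) : EConj b a := by
  induction h with
  | refl => exact refl _
  | tail _ hs ih =>
    obtain ⟨ν, hν, rfl⟩ := hs
    refine trans ?_ ih
    rename_i c _
    have h1 : (1 + -ν) * (1 + ν) = 1 := by noncomm_ring [hν]
    have h2 : (1 - ν) * (1 - -ν) = 1 := by noncomm_ring [hν]
    have := single (ν := -ν) (by simpa using hν) ((1 + ν) * c * (1 - ν))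
    rwa [show (1 + -ν) * ((1 + ν) * c * (1 - ν)) * (1 - -ν) =
      ((1 + -ν) * (1 + ν)) * c * ((1 - ν) * (1 - -ν)) by simp only [mul_assoc], h1, h2,
      one_mul, mul_one] at this

lemma nu (f : B →ₙ+* A) (z : A) (h1 : ∀ b, z * f b = 0) (h2 : ∀ b, f b * z = 0) {a a' : B}
    (h : EConj a a') : EConj (z + f a) (z + f a') := by
  induction h with
  | refl => exact refl _
  | tail _ hs ih =>
    obtain ⟨ν, hν, rfl⟩ := hs
    refine trans ih ?_
    rename_i c _
    have := single (ν := f ν) (by rw [← map_mul, hν, map_zero]) (z + f c)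
    have e : (1 + f ν) * (z + f c) * (1 - f ν) = z + f ((1 + ν) * c * (1 - ν)) := by
      have e1 : (1 + ν) * c * (1 - ν) = c + ν * c - c * ν - ν * c * ν := by noncomm_ring
      rw [e1]
      simp only [map_add, map_sub, map_mul]
      have := h1 ν
      have := h2 ν
      have e2 : (1 + f ν) * (z + f c) * (1 - f ν) = z + f c + f ν * z + f ν * f c - z * f ν
        - f c * f ν - (f ν * z) * f ν - f ν * f c * f ν := by noncomm_ring
      rw [e2, h1, h2]
      noncomm_ring
    rwa [e] at this

lemma map (f : B →+* A) {a a' : B} (h : EConj a a') : EConj (f a) (f a') := by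
  have := nu (f : B →ₙ+* A) 0 (by simp) (by simp) h
  rwa [zero_add, zero_add] at this

/-- The inclusion of one factor in a product of rings. -/
def sing {ι : Type*} [DecidableEq ι] (β : ι → Type*) [∀ i, Ring (β i)] (i : ι) :
    β i →ₙ+* (∀ j, β j) where
  toFun := Pi.single i
  map_zero' := Pi.single_zero i
  map_add' := Pi.single_add i
  map_mul' := Pi.single_mul i

lemma sing_apply {ι : Type*} [DecidableEq ι] (β : ι → Type*) [∀ i, Ring (β i)] (i : ι)
    (c : β i) : sing β i c = Pi.single i c := rfl

lemma pi {ι : Type*} [Finite ι] {β : ι → Type*} [∀ i, Ring (β i)] {a b : ∀ i, β i}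
    (h : ∀ i, EConj (a i) (b i)) : EConj a b := by
  classical
  have := Fintype.ofFinite ι
  have key : ∀ s : Finset ι, EConj a (s.piecewise b a) := by
    intro s
    induction s using Finset.induction_on with
    | empty => simpa using refl a
    | insert i s hi ih =>
      refine trans ih ?_
      let z := Function.update (s.piecewise b a) i 0
      have hz : ∀ c : β i, z + sing β i c = Function.update (s.piecewise b a) i c := by
        intro c
        funext j
        by_cases hj : j = i
        · subst hj; simp [z, sing_apply]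
        · simp [z, sing_apply, hj]
      have := nu (sing β i) z (fun c => by
          funext j
          by_cases hj : j = i
          · subst hj; simp [z, sing_apply]
          · simp [z, sing_apply, hj]) (fun c => by
          funext j
          by_cases hj : j = i
          · subst hj; simp [z, sing_apply]
          · simp [z, sing_apply, hj]) (h i)
      rw [hz, hz, ← Finset.piecewise_insert] at this
      rwa [show Function.update (s.piecewise b a) i (a i) = s.piecewise b a by
        rw [Function.update_eq_self_iff, Finset.piecewise_eq_of_notMem _ _ _ hi]] at this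
  simpa using key Finset.univ

end EConj

section Field

open Matrix

variable {K : Type*} [Field K] {n : Type*} [Fintype n] [DecidableEq n]

lemma diag_prod {A : Type*} [Ring A] [Algebra K A] (p q : A) (hp : p * p = 0) (hq : q * q = 0)
    (hpqp : p * q * p = p) (hqpq : q * p * q = q) (a : K) (ha : a ≠ 0) :
    (1 + (a - 1) • p) * (1 + q) * (1 + (a⁻¹ - 1) • p) * (1 + (-a) • q) =
      1 + (a - 1) • (p * q) + (a⁻¹ - 1) • (q * p) := by
  have h3 : p * (q * p) = p := by rw [← mul_assoc, hpqp]
  have h4 : q * (p * q) = q := by rw [← mul_assoc, hqpq]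
  simp only [mul_add, add_mul, mul_one, one_mul, smul_mul_assoc, mul_smul_comm, mul_assoc,
    h3, h4, hp, hq, smul_zero, add_zero, mul_zero]
  match_scalars <;> field_simp <;> ring

lemma econj_sl (g : SpecialLinearGroup n K) (M : Matrix n n K) :
    EConj M (SpecialLinearGroup.coeMonoidHom g * M * SpecialLinearGroup.coeMonoidHom g⁻¹) := by
  cases subsingleton_or_nontrivial n
  · rw [Subsingleton.elim g 1, inv_one, map_one]; simpa using EConj.refl M
  revert M
  set c : SpecialLinearGroup n K →* Matrix n n K := SpecialLinearGroup.coeMonoidHom with hc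
  have hmul : ∀ A B : SpecialLinearGroup n K, (∀ M, EConj M (c A * M * c A⁻¹)) →
      (∀ M, EConj M (c B * M * c B⁻¹)) → ∀ M, EConj M (c (A * B) * M * c (A * B)⁻¹) := by
    intro A B hA hB M
    refine (hB M).trans ?_
    have := hA (c B * M * c B⁻¹)
    rw [_root_.mul_inv_rev, map_mul, map_mul]
    simpa only [Matrix.mul_assoc] using this
  have hct : ∀ (i j : n) (hij : i ≠ j) (a : K),
      c (SpecialLinearGroup.transvection hij a) = 1 + single i j a := fun _ _ _ _ => rfl
  have htr : ∀ (i j : n) (hij : i ≠ j) (a : K) (M : Matrix n n K),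
      EConj M (c (SpecialLinearGroup.transvection hij a) * M *
        c (SpecialLinearGroup.transvection hij a)⁻¹) := by
    intro i j hij a M
    rw [SpecialLinearGroup.transvection_inv, hct, hct, ← single_neg, ← sub_eq_add_neg]
    exact EConj.single (single_mul_single_of_ne _ _ _ _ hij.symm _) M
  refine SpecialLinearGroup.diagonal_transvection_induction'
    (fun g => ∀ M, EConj M (c g * M * c g⁻¹)) g ?_ htr hmul
  intro i j hij a ha
  have : SpecialLinearGroup.diag2n hij a ha = SpecialLinearGroup.transvection hij (a - 1) *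
      SpecialLinearGroup.transvection hij.symm 1 * SpecialLinearGroup.transvection hij (a⁻¹ - 1) *
      SpecialLinearGroup.transvection hij.symm (-a) := by
    apply SpecialLinearGroup.coeMonoidHom_injective
    have := diag_prod (single i j (1 : K)) (single j i (1 : K))
      (single_mul_single_of_ne _ _ _ _ hij.symm _) (single_mul_single_of_ne _ _ _ _ hij _)
      (by simp) (by simp) a ha
    simp only [smul_single, smul_eq_mul, mul_one, single_mul_single_same] at this
    rw [← hc, map_mul, map_mul, map_mul, hct, hct, hct, hct, this]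
    change diagonal (fun k => if k = i then a else if k = j then a⁻¹ else 1) = _
    ext k l
    simp only [diagonal_apply, Matrix.add_apply, one_apply, single_apply]
    by_cases hkl : k = l
    · subst hkl
      by_cases hi : k = i
      · subst hi; simp [hij.symm]
      · by_cases hj : k = j
        · subst hj; simp [hij, hij.symm]
        · simp [hi, hj, Ne.symm hi, Ne.symm hj]
    · rw [if_neg hkl, if_neg hkl, if_neg, if_neg]
      · simp
      · rintro ⟨rfl, rfl⟩; exact hkl rfl
      · rintro ⟨rfl, rfl⟩; exact hkl rfl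
  rw [this]
  exact hmul _ _ (hmul _ _ (hmul _ _ (htr _ _ _ _) (htr _ _ _ _)) (htr _ _ _ _)) (htr _ _ _ _)

theorem econj_field [CharZero K] (m : ℕ) [NeZero m] (M M' : Matrix n n K) (hM : M ^ m = 1)
    (hM' : M' ^ m = 1) (htr : ∀ k : ℕ, (M ^ k).trace = (M' ^ k).trace) (i₀ : n)
    (hb : ∀ j, j ≠ i₀ → M i₀ j = 0 ∧ M j i₀ = 0) : EConj M M' := by
  obtain ⟨P, Q, hPQ, hQP, hP⟩ := exists_conj_of_trace_pow m M M' hM hM' htr
  let D : Matrix n n K := diagonal (Function.update 1 i₀ Q.det)
  have hD : D * M = M * D := by
    ext k l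
    simp only [D, diagonal_mul, mul_diagonal]
    by_cases hk : k = i₀ <;> by_cases hl : l = i₀
    · subst hk; subst hl; exact mul_comm _ _
    · subst hk; simp [(hb l hl).1]
    · subst hl; simp [(hb k hk).2]
    · simp [hk, hl]
  have hdet : (P * D).det = 1 := by
    rw [det_mul, det_diagonal, Finset.prod_update_of_mem (Finset.mem_univ _)]
    simp only [Pi.one_apply, Finset.prod_const_one, mul_one]
    rw [← det_mul, hPQ, det_one]
  let g : SpecialLinearGroup n K := ⟨P * D, hdet⟩
  have := econj_sl g M
  have h1 : SpecialLinearGroup.coeMonoidHom g * M = M' * SpecialLinearGroup.coeMonoidHom g := by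
    change P * D * M = M' * (P * D)
    rw [Matrix.mul_assoc, hD, ← Matrix.mul_assoc, hP, Matrix.mul_assoc]
  rwa [h1, Matrix.mul_assoc, ← map_mul, mul_inv_cancel, map_one, Matrix.mul_one] at this

end Field

theorem econj_semisimple {S : Type*} [CommRing S] [Algebra ℚ S] [IsSemisimpleRing S]
    {n : Type*} [Fintype n] [DecidableEq n] (m : ℕ) [NeZero m] (M M' : Matrix n n S)
    (hM : M ^ m = 1) (hM' : M' ^ m = 1) (htr : ∀ k : ℕ, (M ^ k).trace = (M' ^ k).trace) (i₀ : n)
    (hb : ∀ j, j ≠ i₀ → M i₀ j = 0 ∧ M j i₀ = 0) : EConj M M' := by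
  let e := (IsArtinianRing.equivPi S).toRingEquiv
  let E : Matrix n n S ≃+* ∀ I : MaximalSpectrum S, Matrix n n (S ⧸ I.asIdeal) :=
    (e.mapMatrix (m := n)).trans Matrix.piRingEquiv
  have hE : ∀ (N : Matrix n n S) (I : MaximalSpectrum S),
      E N I = (Ideal.Quotient.mk I.asIdeal).mapMatrix N := fun _ _ => rfl
  have : EConj (E M) (E M') := by
    apply EConj.pi
    intro I
    let _ := I.isMaximal
    let _ := Ideal.Quotient.field I.asIdeal
    have : CharZero (S ⧸ I.asIdeal) := algebraRat.charZero _
    rw [hE, hE]
    refine econj_field m _ _ (by rw [← map_pow, hM, map_one]) (by rw [← map_pow, hM', map_one])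
      (fun k => ?_) i₀ (fun j hj => ?_)
    · rw [← map_pow, ← map_pow, RingHom.mapMatrix_apply, RingHom.mapMatrix_apply,
        ← AddMonoidHom.map_trace, ← AddMonoidHom.map_trace, htr]
    · simp [(hb j hj).1, (hb j hj).2]
  simpa using this.map E.symm.toRingHom

end Pool.Agent.Lib.MP_902cec_al
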