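import Pool.Agent.Lib.MP_902cec_al.Main

set_option autoImplicit false

namespace Pool.Agent.Lib.MP_902cec_al

open MonoidAlgebra

section SD

variable {F C : Type*} [Field F] [CommGroup C] (ρ : C →* RingAut F)

/-- The action on the unit group. -/
def actU : C →* MulAut Fˣ where
  toFun g := Units.mapEquiv (ρ g).toMulEquiv
  map_one' := by ext; simp
  map_mul' g h := by ext; simp

/-- The action of semilinear homotheties on the additive group. -/
def actA : (Fˣ ⋊[actU ρ] C) →* MulAut (Multiplicative F) where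
  toFun q := AddEquiv.toMultiplicative
    ((ρ q.right).toAddEquiv.trans (DistribMulAction.toAddEquiv F q.left))
  map_one' := by ext; simp
  map_mul' g h := by
    apply MulEquiv.ext
    intro t
    change Multiplicative.ofAdd ((g.left * ρ g.right h.left : F) * (ρ (g.right * h.right)) t.toAdd) =
      Multiplicative.ofAdd ((g.left : F) * ρ g.right (h.left * ρ h.right t.toAdd))
    rw [map_mul ρ, map_mul (ρ g.right), mul_assoc]
    rfl

lemma actA_apply (q : Fˣ ⋊[actU ρ] C) (t : F) :
    actA ρ q (Multiplicative.ofAdd t) = Multiplicative.ofAdd (q.left * ρ q.right t) := rfl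

lemma sd_comm {N Q : Type*} [Group N] [Group Q] (φ : Q →* MulAut N) (g : Q) (n : N) :
    (SemidirectProduct.inr g * SemidirectProduct.inl n : N ⋊[φ] Q) =
      SemidirectProduct.inl (φ g n) * SemidirectProduct.inr g := by
  rw [SemidirectProduct.inl_aut, map_inv, inv_mul_cancel_right]

/-- The affine semilinear group. -/
abbrev AG := Multiplicative F ⋊[actA ρ] (Fˣ ⋊[actU ρ] C)

lemma sd_solvable {N Q : Type*} [Group N] [Group Q] [Group.IsSolvable N] [Group.IsSolvable Q]
    (φ : Q →* MulAut N) : Group.IsSolvable (N ⋊[φ] Q) :=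
  Group.isSolvable_of_ker_le_range SemidirectProduct.inl SemidirectProduct.rightHom
    SemidirectProduct.range_inl_eq_ker_rightHom.ge

lemma AG_solvable : Group.IsSolvable (AG ρ) :=
  have := sd_solvable (actU ρ)
  sd_solvable _

lemma AG_finite [Finite F] [Finite C] : Finite (AG ρ) :=
  have : Finite (Fˣ ⋊[actU ρ] C) := Finite.of_equiv _ SemidirectProduct.equivProd.symm
  Finite.of_equiv _ SemidirectProduct.equivProd.symm

/-- The generators of the affine semilinear group. -/
def sdAff : Aff ρ (AG ρ) where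
  τ a := SemidirectProduct.inl (Multiplicative.ofAdd a)
  σ := SemidirectProduct.inr.comp SemidirectProduct.inl
  γ := SemidirectProduct.inr.comp SemidirectProduct.inr
  τ_zero := by simp
  τ_add a b := by rw [ofAdd_add, map_mul]
  σ_τ c b := by
    rw [MonoidHom.comp_apply, sd_comm, actA_apply, SemidirectProduct.left_inl,
      SemidirectProduct.right_inl, map_one]
    rfl
  γ_τ c b := by
    rw [MonoidHom.comp_apply, sd_comm, actA_apply, SemidirectProduct.left_inr,
      SemidirectProduct.right_inr, Units.val_one, one_mul]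
  γ_σ c b := by
    simp only [MonoidHom.comp_apply]
    rw [← map_mul, ← map_mul, sd_comm]
    rfl

lemma sdAff_inj (a : F) (g : C) (h : (sdAff ρ).τ a * (sdAff ρ).γ g = 1) : a = 0 := by
  have := congrArg SemidirectProduct.left h
  change Multiplicative.ofAdd a * actA ρ 1 1 = 1 at this
  simpa using this

end SD

lemma sq_ne_one {F C : Type*} [Field F] [CommGroup C] {ρ : C →* RingAut F} {G : Type*} [Group G]
    (X : Aff ρ G) (hX : ∀ a g, X.τ a * X.γ g = 1 → a = 0) (h2 : (2 : F) ≠ 0) (g : C) :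
    (X.τ 1 * X.γ g) ^ 2 ≠ 1 := by
  intro h
  rw [pow_two, mul_assoc, ← mul_assoc (X.γ g), X.γ_τ, map_one, mul_assoc, ← mul_assoc, ← X.τ_add,
    ← map_mul, one_add_one_eq_two] at h
  exact h2 (hX _ _ h)

lemma sq_comm {G : Type*} [Group G] (g h : G) : (g * h) ^ 2 = 1 ↔ (h * g) ^ 2 = 1 := by
  rw [show h * g = h * (g * h) * h⁻¹ by group, conj_pow, mul_inv_eq_one, mul_eq_left]

open Classical in
/-- The indicator function of the elements whose square is trivial. -/
noncomputable def ind2 {G : Type*} [Group G] (g : G) : ℚ := if g ^ 2 = 1 then 1 else 0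

lemma ind2_comm {G : Type*} [Group G] (g h : G) : ind2 (g * h) = ind2 (h * g) := by
  classical
  exact if_congr (sq_comm g h) rfl rfl

lemma ind2_pos {G : Type*} [Group G] {g : G} (h : g ^ 2 = 1) : ind2 g = 1 := if_pos h

lemma ind2_neg {G : Type*} [Group G] {g : G} (h : g ^ 2 ≠ 1) : ind2 g = 0 := if_neg h

theorem exists_unit : ∃ (G : Type) (_ : Group G) (_ : Finite G) (_ : Group.IsSolvable G)
    (u : (MonoidAlgebra ℤ G)ˣ), u ^ 30 = 1 ∧ cf (fun _ => 1) (inc G u) = 1 ∧
      cf ind2 (inc G u) = 2 := by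
  have : Fact (Nat.Prime 5) := ⟨by norm_num⟩
  have h₃ : Module.finrank (ZMod 3) (GaloisField 3 10) = 10 := GaloisField.finrank 3 (by norm_num)
  have h₅ : Module.finrank (ZMod 5) (GaloisField 5 6) = 6 := GaloisField.finrank 5 (by norm_num)
  let ρ₃ := rho 3 (GaloisField 3 10) (by rw [h₃]; norm_num)
  let ρ₅ := rho 5 (GaloisField 5 6) (by rw [h₅]; norm_num)
  have := AG_solvable ρ₃
  have := AG_solvable ρ₅
  have := AG_finite ρ₃
  have := AG_finite ρ₅
  let X := sdAff ρ₃
  let Y := sdAff ρ₅
  have hcm : ∀ z : AG ρ₅, (X.map (MonoidHom.inl (AG ρ₃) (AG ρ₅))).Cm (MonoidHom.inr _ _ z) :=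
    fun z => ⟨fun _ => (MonoidHom.commute_inl_inr _ _).symm,
      fun _ => (MonoidHom.commute_inl_inr _ _).symm, fun _ => (MonoidHom.commute_inl_inr _ _).symm⟩
  obtain ⟨u, hu, hT⟩ := main_unit h₃ h₅ (X.map (MonoidHom.inl (AG ρ₃) (AG ρ₅)))
    (Y.map (MonoidHom.inr (AG ρ₃) (AG ρ₅))) (fun _ => hcm _) (fun _ => hcm _) (fun _ => hcm _)
  refine ⟨AG ρ₃ × AG ρ₅, inferInstance, inferInstance, inferInstance, u, hu, ?_, ?_⟩
  · rw [hT _ fun _ _ => rfl]; norm_num
  · have n3 : (2 : GaloisField 3 10) ≠ 0 := by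
      have := (CharP.cast_eq_zero_iff (GaloisField 3 10) 3 2).not.2 (by norm_num)
      simpa using this
    have n5 : (2 : GaloisField 5 6) ≠ 0 := by
      have := (CharP.cast_eq_zero_iff (GaloisField 5 6) 5 2).not.2 (by norm_num)
      simpa using this
    have a3 := sq_ne_one X (sdAff_inj ρ₃) n3
    have a5 := sq_ne_one Y (sdAff_inj ρ₅) n5
    have b3 : X.γ (eta ^ 15) ^ 2 = 1 := by rw [← map_pow, ← pow_mul, eta_pow, map_one]
    have b5 : Y.γ (eta ^ 15) ^ 2 = 1 := by rw [← map_pow, ← pow_mul, eta_pow, map_one]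
    rw [hT _ ind2_comm]
    simp only [Aff.map, MonoidHom.comp_apply, MonoidHom.inl_apply, MonoidHom.inr_apply,
      Prod.mk_mul_mk, mul_one, one_mul]
    rw [ind2_neg fun h => a3 _ (congrArg Prod.fst h), ind2_pos (Prod.ext b3 b5),
      ind2_neg fun h => a5 _ (congrArg Prod.snd h), ind2_neg fun h => a3 _ (congrArg Prod.fst h),
      ind2_neg fun h => a3 _ (congrArg Prod.fst h)]
    norm_num

theorem not_conj {G H : Type*} [Group G] [Group H] (f : G →* H) (hf : Function.Injective f)
    (φ : MonoidAlgebra ℤ G →+* MonoidAlgebra ℚ H)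
    (hφ : ∀ g, φ (single g 1) = single (f g) 1) (u : MonoidAlgebra ℤ G)
    (hu : cf ind2 (inc G u) = 2) (w w' : MonoidAlgebra ℚ H)
    (hw : w' * w = 1) (h : H) : w * φ u * w' ≠ single h 1 := by
  intro e
  have h1 := congrArg (cf ind2) e
  rw [cf_comm _ ind2_comm, ← mul_assoc, hw, one_mul, cf_single] at h1
  have h2 := zadd_ext ((cf ind2).comp φ.toAddMonoidHom)
    ((cf ind2).comp (inc G).toAddMonoidHom) (fun g => by
      change cf _ (φ (single g 1)) = cf _ (inc G (single g 1))
      rw [hφ, inc_single, cf_single, cf_single, Int.cast_one]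
      by_cases hg : g ^ 2 = 1
      · rw [ind2_pos hg, ind2_pos (by rw [← map_pow, hg, map_one])]
      · rw [ind2_neg hg, ind2_neg (by rwa [← map_pow, Ne, map_eq_one_iff f hf])]) u
  have h3 : (2 : ℚ) = 1 * ind2 h := (hu.symm.trans h2.symm).trans h1
  by_cases hh : h ^ 2 = 1
  · rw [ind2_pos hh] at h3; norm_num at h3
  · rw [ind2_neg hh] at h3; norm_num at h3

lemma cf_inc {G : Type*} [Group G] (c : G → ℤ) (u : MonoidAlgebra ℤ G) :
    cf (fun g => c g) (inc G u) = (u.coeff.sum fun g a => a * c g : ℤ) := by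
  induction u using induction_linear with
  | zero => simp
  | add a b ha hb =>
    rw [map_add, map_add, ha, hb, coeff_add, Finsupp.sum_add_index' (by simp) (by simp [add_mul])]
    simp
  | single g r => rw [inc_single, cf_single]; simp

lemma aug_eq {G : Type*} [Group G] (ε : MonoidAlgebra ℤ G →+* ℤ) (hε : ∀ g, ε (single g 1) = 1)
    (u : MonoidAlgebra ℤ G) : (ε u : ℚ) = cf (fun _ => 1) (inc G u) :=
  zadd_ext ((Int.castAddHom ℚ).comp ε.toAddMonoidHom)
    ((cf fun _ => 1).comp (inc G).toAddMonoidHom) (fun g => by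
      change ((ε (single g 1) : ℤ) : ℚ) = cf _ (inc G (single g 1))
      rw [hε, inc_single, cf_single, mul_one]) u

end Pool.Agent.Lib.MP_902cec_al
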