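import Pool.Agent.Lib.MP_902cec_al.Real

set_option autoImplicit false

namespace Pool.Agent.Lib.MP_902cec_al

/-- The cyclic group of order thirty. -/
abbrev C30 := Multiplicative (ZMod 30)

/-- Its generator. -/
def eta : C30 := Multiplicative.ofAdd 1

lemma eta_pow : eta ^ 30 = 1 := by decide

variable (p : ℕ) [Fact p.Prime] (F : Type*) [Field F] [Finite F] [Algebra (ZMod p) F]

/-- The Frobenius automorphism. -/
noncomputable def frob : F ≃ₐ[ZMod p] F := FiniteField.frobeniusAlgEquivOfAlgebraic (ZMod p) F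

lemma frob_pow : frob p F ^ Module.finrank (ZMod p) F = 1 := by
  rw [← FiniteField.orderOf_frobeniusAlgEquivOfAlgebraic]
  exact pow_orderOf_eq_one _

lemma card_fix (k : ℕ) :
    Nat.card {t : F // (frob p F ^ k) t = t} = p ^ Nat.gcd (Module.finrank (ZMod p) F) k := by
  set n := Module.finrank (ZMod p) F with hn
  have hn0 : 0 < n := Module.finrank_pos
  let K := IntermediateField.fixedField (Subgroup.zpowers (frob p F ^ k))
  have h1 : Module.finrank K F = n / Nat.gcd n k := by
    rw [IntermediateField.finrank_fixedField_eq_card, Nat.card_zpowers, orderOf_pow, frob,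
      FiniteField.orderOf_frobeniusAlgEquivOfAlgebraic]
  have h2 : Nat.card F = Nat.card K ^ (n / Nat.gcd n k) := by
    rw [← h1]; exact Module.natCard_eq_pow_finrank
  have h3 : Nat.card F = p ^ n := by
    rw [Module.natCard_eq_pow_finrank (K := ZMod p), Nat.card_zmod]
  have h4 : Nat.card {t : F // (frob p F ^ k) t = t} = Nat.card K := by
    refine Nat.card_congr (Equiv.subtypeEquivRight fun t => ?_)
    rw [IntermediateField.mem_fixedField_iff]
    constructor
    · intro ht f hf
      have : Subgroup.zpowers (frob p F ^ k) ≤ MulAction.stabilizer _ t :=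
        Subgroup.zpowers_le_of_mem ht
      exact this hf
    · intro h
      exact h _ (Subgroup.mem_zpowers _)
  have h5 : n / Nat.gcd n k ≠ 0 :=
    (Nat.div_pos (Nat.le_of_dvd hn0 (Nat.gcd_dvd_left _ _)) (Nat.gcd_pos_of_pos_left _ hn0)).ne'
  apply Nat.pow_left_injective h5
  simp only
  rw [h4, ← h2, h3, ← pow_mul, Nat.mul_div_cancel' (Nat.gcd_dvd_left _ _)]

lemma no_fix (hp : ¬ p ∣ Module.finrank (ZMod p) F) (k : ℕ) (b : ZMod p) (t : F)
    (h : (frob p F ^ k) t + algebraMap (ZMod p) F b = t) : b = 0 := by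
  have h1 : ∀ m : ℕ, ((frob p F ^ k) ^ m) t + algebraMap (ZMod p) F (m * b) = t := by
    intro m
    induction m with
    | zero => simp
    | succ m ih =>
      rw [pow_succ', AlgEquiv.mul_apply, Nat.cast_succ, add_mul, one_mul, map_add, ← add_assoc,
        ← (frob p F ^ k).commutes (m * b), ← map_add, ih, h]
  have h2 := h1 (Module.finrank (ZMod p) F)
  rw [← pow_mul, mul_comm k, pow_mul, frob_pow, one_pow, AlgEquiv.one_apply, add_eq_left,
    map_eq_zero, mul_eq_zero, ZMod.natCast_eq_zero_iff] at h2
  exact h2.resolve_left hp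

variable (h30 : Module.finrank (ZMod p) F ∣ 30)

/-- The action of the cyclic group of order thirty through Frobenius. -/
noncomputable def rho : C30 →* RingAut F :=
  (MulSemiringAction.toRingAut (F ≃ₐ[ZMod p] F) F).comp (cyc 30 (frob p F) (by
    obtain ⟨j, hj⟩ := h30
    rw [hj, pow_mul, frob_pow, one_pow]))

lemma rho_eta_pow (k : ℕ) (t : F) : rho p F h30 (eta ^ k) t = (frob p F ^ k) t := by
  rw [rho, MonoidHom.comp_apply, map_pow, eta, cyc_gen]
  rfl

/-- The inclusion of the prime field. -/
def iota : ZMod p →+ F := (algebraMap (ZMod p) F).toAddMonoidHom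

lemma rho_iota (g : C30) (i : ZMod p) : rho p F h30 g (iota p F i) = iota p F i :=
  AlgEquiv.commutes _ i

lemma trace_act [Fintype F] [DecidableEq F] (hp : ¬ p ∣ Module.finrank (ZMod p) F) (k : ℕ)
    (b : ZMod p) :
    (piv (Aff.act (iota p F) (rho_iota p F h30) (eta ^ k, Multiplicative.ofAdd b))).trace =
      if b = 0 then (p : ℤ) ^ Nat.gcd (Module.finrank (ZMod p) F) k - 1 else -1 := by
  rw [trace_piv]
  simp only [Aff.act_apply, rho_eta_pow, toAdd_ofAdd]
  split_ifs with hb
  · subst hb
    simp only [map_zero, add_zero]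
    rw [← Fintype.card_subtype, ← Nat.card_eq_fintype_card, card_fix]
    simp
  · rw [Finset.filter_eq_empty_iff.2]
    · simp
    · exact fun t _ ht => hb (no_fix p F hp k b t ht)

/-- The affine semilinear maps as permutations. -/
noncomputable def permAff {C : Type*} [Group C] (ρ : C →* RingAut F) : Aff ρ (Equiv.Perm F) where
  τ a := Equiv.addLeft a
  σ := MulAction.toPermHom Fˣ F
  γ := (RingAut.toPerm F).comp ρ
  τ_zero := by ext; simp
  τ_add a b := Equiv.ext fun t => add_assoc a b t
  σ_τ c b := Equiv.ext fun t => mul_add (c : F) b t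
  γ_τ c b := Equiv.ext fun t => map_add (ρ c) b t
  γ_σ c b := Equiv.ext fun t => map_mul (ρ c) (b : F) t

end Pool.Agent.Lib.MP_902cec_al
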