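import Pool.Agent.Lib.MP_902cec_al.EConj

set_option autoImplicit false

namespace Pool.Agent.Lib.MP_902cec_al

variable {A : Type*} [Ring A]

/-- Elements whose multiple by some integer in `M` lies in `Λ`. -/
def loc (Λ : Subring A) (M : Submonoid ℤ) : Subring A where
  carrier := {z | ∃ m ∈ M, m • z ∈ Λ}
  mul_mem' := by
    rintro x y ⟨m, hm, hx⟩ ⟨n, hn, hy⟩
    exact ⟨m * n, M.mul_mem hm hn, by rw [← smul_mul_smul_comm]; exact Λ.mul_mem hx hy⟩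
  one_mem' := ⟨1, M.one_mem, by simp⟩
  add_mem' := by
    rintro x y ⟨m, hm, hx⟩ ⟨n, hn, hy⟩
    refine ⟨m * n, M.mul_mem hm hn, ?_⟩
    rw [smul_add]
    refine Λ.add_mem ?_ ?_
    · rw [mul_comm, mul_smul]; exact zsmul_mem hx _
    · rw [mul_smul]; exact zsmul_mem hy _
  zero_mem' := ⟨1, M.one_mem, by simp⟩
  neg_mem' := by
    rintro x ⟨m, hm, hx⟩
    exact ⟨m, hm, by rw [smul_neg]; exact Λ.neg_mem hx⟩

lemma mem_loc {Λ : Subring A} {M : Submonoid ℤ} {z : A} :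
    z ∈ loc Λ M ↔ ∃ m ∈ M, m • z ∈ Λ := Iff.rfl

lemma le_loc (Λ : Subring A) (M : Submonoid ℤ) : Λ ≤ loc Λ M :=
  fun _ hz => ⟨1, M.one_mem, by simpa using hz⟩

/-- Integers coprime to five. -/
def cop5 : Submonoid ℤ where
  carrier := {m | IsCoprime m 5}
  mul_mem' := IsCoprime.mul_left
  one_mem' := isCoprime_one_left

/-- The unit given by a square-zero element. -/
def unip (ν : A) (h : ν * ν = 0) : Aˣ :=
  ⟨1 + ν, 1 - ν, by noncomm_ring [h], by noncomm_ring [h]⟩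

lemma split_unip (Λ : Subring A) (hΛ : ∀ a : A, ∃ n : ℤ, n ≠ 0 ∧ n • a ∈ Λ) (μ : A)
    (hμ : μ * μ = 0) : ∃ u v : Aˣ, (u : A) ∈ loc Λ cop5 ∧ ((u⁻¹ : Aˣ) : A) ∈ loc Λ cop5 ∧
      (v : A) ∈ loc Λ (Submonoid.powers 5) ∧ ((v⁻¹ : Aˣ) : A) ∈ loc Λ (Submonoid.powers 5) ∧
      u * v = unip μ hμ := by
  obtain ⟨n, hn, hnμ⟩ := hΛ μ
  have h5 : Irreducible (5 : ℤ) := (Int.prime_iff_natAbs_prime.2 (by norm_num)).irreducible
  obtain ⟨k, m, hm, rfl⟩ := WfDvdMonoid.max_power_factor hn h5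
  have hc : IsCoprime m 5 := (h5.coprime_iff_not_dvd.2 hm).symm
  obtain ⟨x, y, hxy⟩ := hc.pow_right (n := k)
  have h1 : (y * 5 ^ k) • μ ∈ loc Λ cop5 := ⟨m, hc, by
    rw [smul_smul, show m * (y * 5 ^ k) = y * (5 ^ k * m) by ring, mul_smul]
    exact zsmul_mem hnμ _⟩
  have h2 : (x * m) • μ ∈ loc Λ (Submonoid.powers 5) := ⟨5 ^ k, ⟨k, rfl⟩, by
    rw [smul_smul, show 5 ^ k * (x * m) = x * (5 ^ k * m) by ring, mul_smul]
    exact zsmul_mem hnμ _⟩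
  have hsq : ∀ a b : ℤ, (a • μ) * (b • μ) = 0 := fun a b => by
    rw [smul_mul_smul_comm, hμ, smul_zero]
  refine ⟨unip _ (hsq (y * 5 ^ k) _), unip _ (hsq (x * m) _), add_mem (one_mem _) h1,
    sub_mem (one_mem _) h1, add_mem (one_mem _) h2, sub_mem (one_mem _) h2, ?_⟩
  apply Units.ext
  change (1 + _) * (1 + _) = 1 + μ
  rw [add_mul, mul_add, mul_add, hsq, one_mul, one_mul, mul_one, add_zero, add_assoc, ← add_smul,
    hxy, one_smul]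

theorem glue (Λ : Subring A) (hΛ : ∀ a : A, ∃ n : ℤ, n ≠ 0 ∧ n • a ∈ Λ) {a b : A}
    (h : EConj a b) (ha : a ∈ loc Λ (Submonoid.powers 5)) (hb : b ∈ loc Λ cop5) :
    ∃ t : Aˣ, t * a * (t⁻¹ : Aˣ) ∈ Λ := by
  have key : ∀ c, EConj a c → ∃ s t : Aˣ, (s : A) ∈ loc Λ cop5 ∧ ((s⁻¹ : Aˣ) : A) ∈ loc Λ cop5 ∧
      (t : A) ∈ loc Λ (Submonoid.powers 5) ∧ ((t⁻¹ : Aˣ) : A) ∈ loc Λ (Submonoid.powers 5) ∧
      c = (s * t : Aˣ) * a * ((s * t)⁻¹ : Aˣ) := by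
    intro c hc
    induction hc with
    | refl => exact ⟨1, 1, one_mem _, one_mem _, one_mem _, one_mem _, by simp⟩
    | tail _ hs ih =>
      obtain ⟨ν, hν, rfl⟩ := hs
      obtain ⟨s, t, hs1, hs2, ht1, ht2, rfl⟩ := ih
      have hμ : ((s⁻¹ : Aˣ) * ν * s) * ((s⁻¹ : Aˣ) * ν * s) = 0 := by
        rw [show ((s⁻¹ : Aˣ) * ν * s) * ((s⁻¹ : Aˣ) * ν * s) =
          (s⁻¹ : Aˣ) * ν * (s * (s⁻¹ : Aˣ)) * ν * s by simp only [mul_assoc], Units.mul_inv,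
          mul_one, mul_assoc _ ν ν, hν, mul_zero, zero_mul]
      obtain ⟨u, v, hu1, hu2, hv1, hv2, huv⟩ := split_unip Λ hΛ _ hμ
      refine ⟨s * u, v * t, mul_mem hs1 hu1, ?_, mul_mem hv1 ht1, ?_, ?_⟩
      · rw [mul_inv_rev]; exact mul_mem hu2 hs2
      · rw [mul_inv_rev]; exact mul_mem ht2 hv2
      · have e : s * u * (v * t) = unip ν hν * (s * t) := by
          rw [show s * u * (v * t) = s * (u * v) * t by simp only [mul_assoc], huv, ← mul_assoc]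
          congr 1
          apply Units.ext
          change (s : A) * (1 + (s⁻¹ : Aˣ) * ν * s) = (1 + ν) * s
          rw [mul_add, add_mul, ← mul_assoc, ← mul_assoc, Units.mul_inv, one_mul, mul_one, one_mul]
        rw [e, mul_inv_rev (unip ν hν), Units.val_mul (unip ν hν), Units.val_mul _ (unip ν hν)⁻¹]
        simp only [mul_assoc]
        rfl
  obtain ⟨s, t, hs1, hs2, ht1, ht2, rfl⟩ := key b h
  refine ⟨t, ?_⟩
  obtain ⟨_, ⟨k, rfl⟩, h1⟩ := mul_mem (mul_mem ht1 ha) ht2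
  obtain ⟨m, hm, h2⟩ := mul_mem (mul_mem hs2 hb) hs1
  have e : ((s⁻¹ : Aˣ) : A) * ((s * t : Aˣ) * a * ((s * t)⁻¹ : Aˣ)) * s = t * a * (t⁻¹ : Aˣ) := by
    rw [mul_inv_rev]
    simp [mul_assoc]
  rw [e] at h2
  obtain ⟨x, y, hxy⟩ := IsCoprime.pow_right (n := k) (show IsCoprime m 5 from hm)
  have := add_mem (zsmul_mem h2 x) (zsmul_mem h1 y)
  rwa [smul_smul, smul_smul, ← add_smul, hxy, one_smul] at this

end Pool.Agent.Lib.MP_902cec_al
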