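import Pool.Agent.Lib.MP_902cec_al.Glue

set_option autoImplicit false

namespace Pool.Agent.Lib.MP_902cec_al

variable {A B : Type*} [Ring A] [Ring B] {I : Type*} [Fintype I] [DecidableEq I]

/-- A family of matrix units. -/
def IsMU (e : I → I → A) : Prop := ∀ a b c d, e a b * e c d = if b = c then e a d else 0

/-- The element of `A` attached to a matrix over `B`. -/
def ph (e : I → I → A) (θ : B →+* A) (M : Matrix I I B) : A := ∑ a, ∑ b, e a b * θ (M a b)

/-- `ph` as a non-unital ring homomorphism. -/
def phi (e : I → I → A) (he : IsMU e) (θ : B →+* A) (h : ∀ a b s, Commute (e a b) (θ s)) :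
    Matrix I I B →ₙ+* A where
  toFun := ph e θ
  map_zero' := by simp [ph]
  map_add' M N := by simp [ph, mul_add, Finset.sum_add_distrib]
  map_mul' M N := by
    unfold ph
    have : ∀ a c d b, e a c * θ (M a c) * (e d b * θ (N d b)) =
        if c = d then e a b * θ (M a c * N d b) else 0 := by
      intro a c d b
      rw [mul_assoc, ← mul_assoc (θ _), ← (h d b _).eq, mul_assoc, ← mul_assoc, he, ← map_mul]
      split_ifs <;> simp
    rw [Finset.sum_mul]
    refine Finset.sum_congr rfl fun a _ => ?_
    rw [Finset.sum_mul]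
    have h2 : ∀ c, e a c * θ (M a c) * ∑ d, ∑ b, e d b * θ (N d b) =
        ∑ b, e a b * θ (M a c * N c b) := by
      intro c
      rw [Finset.mul_sum, Finset.sum_eq_single c]
      · rw [Finset.mul_sum]
        exact Finset.sum_congr rfl fun b _ => by rw [this, if_pos rfl]
      · intro d _ hd
        rw [Finset.mul_sum]
        exact Finset.sum_eq_zero fun b _ => by rw [this, if_neg hd.symm]
      · simp
    rw [Finset.sum_congr rfl fun c _ => h2 c, Finset.sum_comm]
    refine Finset.sum_congr rfl fun b _ => ?_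
    rw [Matrix.mul_apply, map_sum, Finset.mul_sum]

lemma phi_apply (e : I → I → A) (he : IsMU e) (θ : B →+* A) (h : ∀ a b s, Commute (e a b) (θ s))
    (M : Matrix I I B) : phi e he θ h M = ph e θ M := rfl

lemma ph_one (e : I → I → A) (θ : B →+* A) : ph e θ 1 = ∑ a, e a a := by
  unfold ph
  refine Finset.sum_congr rfl fun a _ => ?_
  rw [Finset.sum_eq_single a]
  · simp
  · intro b _ hb; simp [Matrix.one_apply_ne hb.symm]
  · simp

omit [DecidableEq I] in
lemma mul_ph_eq_zero (e : I → I → A) (θ : B →+* A) {z : A} (hz : ∀ a b, z * e a b = 0)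
    (M : Matrix I I B) : z * ph e θ M = 0 := by
  simp [ph, Finset.mul_sum, ← mul_assoc, hz]

omit [DecidableEq I] in
lemma ph_mul_eq_zero (e : I → I → A) (θ : B →+* A) (h : ∀ a b s, Commute (e a b) (θ s)) {z : A}
    (hz : ∀ a b, e a b * z = 0) (M : Matrix I I B) : ph e θ M * z = 0 := by
  simp [ph, Finset.sum_mul, (h _ _ _).eq, mul_assoc, hz]

omit [DecidableEq I] in
lemma ph_mem (e : I → I → A) (θ : B →+* A) (R : Subring A) (h1 : ∀ a b, e a b ∈ R)
    (h2 : ∀ s, θ s ∈ R) (M : Matrix I I B) : ph e θ M ∈ R :=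
  sum_mem fun _ _ => sum_mem fun _ _ => mul_mem (h1 _ _) (h2 _)

lemma trace_ph (e : I → I → A) (he : IsMU e) (θ : B →+* A) (h : ∀ a b s, Commute (e a b) (θ s))
    {N : Type*} [AddCommGroup N] (T : A →+ N) (hT : ∀ x y, T (x * y) = T (y * x)) (i : I)
    (M : Matrix I I B) : T (ph e θ M) = T (e i i * θ M.trace) := by
  have : ∀ a b s, T (e a b * θ s) = if b = a then T (e i i * θ s) else 0 := by
    intro a b s
    have e1 : e a b = e a i * e i b := by rw [he, if_pos rfl]
    rw [e1, mul_assoc, hT, mul_assoc, ← (h a i s).eq, ← mul_assoc, he]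
    split_ifs <;> simp
  rw [ph, map_sum, Matrix.trace, map_sum, Finset.mul_sum, map_sum]
  refine Finset.sum_congr rfl fun a _ => ?_
  rw [map_sum, Finset.sum_congr rfl fun b _ => this a b _]
  simp

/-- The ring homomorphism out of an integral group ring. -/
noncomputable def zlift {D : Type*} [Monoid D] (g : D →* A) : MonoidAlgebra ℤ D →+* A :=
  MonoidAlgebra.liftNCRingHom (Int.castRingHom A) g (fun x y => Int.cast_commute x (g y))

lemma zlift_of {D : Type*} [Monoid D] (g : D →* A) (d : D) :
    zlift g (MonoidAlgebra.of ℤ D d) = g d := by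
  simp [zlift]

lemma zadd_ext {D : Type*} [Monoid D] {N : Type*} [AddCommGroup N]
    (f g : MonoidAlgebra ℤ D →+ N)
    (h : ∀ d, f (MonoidAlgebra.of ℤ D d) = g (MonoidAlgebra.of ℤ D d)) (s : MonoidAlgebra ℤ D) :
    f s = g s := by
  induction s using MonoidAlgebra.induction_on with
  | of d => exact h d
  | add x y hx hy => rw [map_add, map_add, hx, hy]
  | smul r x hx => rw [map_zsmul, map_zsmul, hx]

lemma zlift_mem {D : Type*} [Monoid D] (g : D →* A) (R : Subring A) (h : ∀ d, g d ∈ R)
    (s : MonoidAlgebra ℤ D) : zlift g s ∈ R := by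
  induction s using MonoidAlgebra.induction_on with
  | of d => rw [zlift_of]; exact h d
  | add x y hx hy => rw [map_add]; exact add_mem hx hy
  | smul r x hx => rw [map_zsmul]; exact zsmul_mem hx _

lemma zlift_commute {D : Type*} [Monoid D] (g : D →* A) (z : A) (h : ∀ d, Commute z (g d))
    (s : MonoidAlgebra ℤ D) : Commute z (zlift g s) := by
  induction s using MonoidAlgebra.induction_on with
  | of d => rw [zlift_of]; exact h d
  | add x y hx hy => rw [map_add]; exact hx.add_right hy
  | smul r x hx => rw [map_zsmul]; exact hx.smul_right _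

end Pool.Agent.Lib.MP_902cec_al
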