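import Pool.Agent.Lib.MP_902cec_al.Fix

set_option autoImplicit false

namespace Pool.Agent.Lib.MP_902cec_al

open MonoidAlgebra

section cf

variable {G : Type*} [Group G]

/-- The linear functional on the rational group ring attached to a function on the group. -/
noncomputable def cf (c : G → ℚ) : MonoidAlgebra ℚ G →+ ℚ := liftNC (AddMonoidHom.id ℚ) c

omit [Group G] in
lemma cf_single (c : G → ℚ) (g : G) (r : ℚ) : cf c (single g r) = r * c g := liftNC_single _ _ _ _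

lemma cf_comm (c : G → ℚ) (hc : ∀ g h, c (g * h) = c (h * g)) (x y : MonoidAlgebra ℚ G) :
    cf c (x * y) = cf c (y * x) := by
  induction x using induction_linear with
  | zero => simp
  | add a b ha hb => rw [add_mul, mul_add, map_add, map_add, ha, hb]
  | single g r =>
    induction y using induction_linear with
    | zero => simp
    | add a b ha hb => rw [add_mul, mul_add, map_add, map_add, ha, hb]
    | single h s => rw [single_mul_single, single_mul_single, cf_single, cf_single, hc, mul_comm r]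

/-- The inclusion of the integral group ring in the rational group ring. -/
noncomputable def inc (G : Type*) [Group G] : MonoidAlgebra ℤ G →+* MonoidAlgebra ℚ G :=
  mapRingHom G (Int.castRingHom ℚ)

lemma inc_single (g : G) (n : ℤ) : inc G (single g n) = single g (n : ℚ) := mapRingHom_single _ _ _

lemma inc_injective : Function.Injective (inc G) :=
  map_injective (Int.castRingHom ℚ).toAddMonoidHom Int.cast_injective

lemma of_mem (g : G) : of ℚ G g ∈ (inc G).range := ⟨single g 1, by simp [inc_single]⟩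

lemma exists_den (a : MonoidAlgebra ℚ G) : ∃ n : ℤ, n ≠ 0 ∧ n • a ∈ (inc G).range := by
  induction a using induction_linear with
  | zero => exact ⟨1, one_ne_zero, by simp⟩
  | add a b ha hb =>
    obtain ⟨m, hm, ha⟩ := ha
    obtain ⟨n, hn, hb⟩ := hb
    refine ⟨m * n, mul_ne_zero hm hn, ?_⟩
    rw [smul_add]
    refine add_mem ?_ ?_
    · rw [mul_comm, mul_smul]; exact zsmul_mem ha _
    · rw [mul_smul]; exact zsmul_mem hb _
  | single g r =>
    refine ⟨r.den, by exact_mod_cast r.den_nz, single g r.num, ?_⟩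
    rw [inc_single, smul_single]
    congr 1
    simp

end cf

namespace Aff

variable {F C : Type*} [Field F] [CommGroup C] {ρ : C →* RingAut F}

/-- An element commutes with the affine semilinear group. -/
def Cm {Γ : Type*} [Monoid Γ] (X : Aff ρ Γ) (z : Γ) : Prop :=
  (∀ a, Commute z (X.τ a)) ∧ (∀ c, Commute z (X.σ c)) ∧ ∀ g, Commute z (X.γ g)

variable [Fintype F] [DecidableEq F] {A : Type*} [Ring A] [Algebra ℚ A] (X : Aff ρ A)

omit [Algebra ℚ A] in
lemma mem_cent {z w : A} : w ∈ Subring.centralizer {z} ↔ Commute z w := by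
  simp [Subring.mem_centralizer_iff, commute_iff_eq]

lemma Cm.e {z : A} (h : X.Cm z) (a b : F) : Commute z (X.e a b) :=
  mem_cent.1 (X.e_mem _ (mem_cent.2 ((Commute.one_right z).smul_right _))
    (fun a => mem_cent.2 (h.1 a)) (fun a => mem_cent.2 (h.2.1 a)) a b)

lemma Cm.fl {z : A} (h : X.Cm z) (g : C) : Commute z (X.fl g) :=
  mem_cent.1 (X.fl_mem _ (mem_cent.2 ((Commute.one_right z).smul_right _))
    (fun a => mem_cent.2 (h.1 a)) (fun a => mem_cent.2 (h.2.1 a)) (fun a => mem_cent.2 (h.2.2 a)) g)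

lemma comm_sys {F' : Type*} [Field F'] {ρ' : C →* RingAut F'} [Fintype F'] [DecidableEq F']
    (Y : Aff ρ' A) (h1 : ∀ a, X.Cm (Y.τ a)) (h2 : ∀ c, X.Cm (Y.σ c)) (h3 : ∀ g, X.Cm (Y.γ g))
    {P : Type*} [AddCommGroup P] (ι : P →+ F) (hι : ∀ g i, ρ g (ι i) = ι i)
    {P' : Type*} [AddCommGroup P'] (ι' : P' →+ F') (hι' : ∀ g i, ρ' g (ι' i) = ι' i) :
    Comm (X.sys ι hι) (Y.sys ι' hι') := by
  have e : ∀ a b, Y.Cm (X.e a b) := fun a b =>
    ⟨fun c => ((h1 c).e X a b).symm, fun c => ((h2 c).e X a b).symm,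
      fun c => ((h3 c).e X a b).symm⟩
  have l : ∀ g, Y.Cm (X.fl g) := fun g =>
    ⟨fun c => ((h1 c).fl X g).symm, fun c => ((h2 c).fl X g).symm, fun c => ((h3 c).fl X g).symm⟩
  exact ⟨fun a b c d => (e a b).e Y c d, fun a b g => (e a b).fl Y g,
    fun g c d => (l g).e Y c d, fun g h => (l g).fl Y h⟩

end Aff

lemma gcd_six (n : ℕ) :
    Nat.gcd 6 n = if 2 ∣ n then (if 3 ∣ n then 6 else 2) else (if 3 ∣ n then 3 else 1) := by
  rw [Nat.gcd_rec]
  have : n % 6 = 0 ∨ n % 6 = 1 ∨ n % 6 = 2 ∨ n % 6 = 3 ∨ n % 6 = 4 ∨ n % 6 = 5 := by omega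
  rcases this with h | h | h | h | h | h <;> rw [h] <;> split_ifs <;> first | rfl | omega

lemma gcd_ten (n : ℕ) :
    Nat.gcd 10 n = if 2 ∣ n then (if 5 ∣ n then 10 else 2) else (if 5 ∣ n then 5 else 1) := by
  rw [Nat.gcd_rec]
  have : n % 10 = 0 ∨ n % 10 = 1 ∨ n % 10 = 2 ∨ n % 10 = 3 ∨ n % 10 = 4 ∨ n % 10 = 5 ∨
    n % 10 = 6 ∨ n % 10 = 7 ∨ n % 10 = 8 ∨ n % 10 = 9 := by omega
  rcases this with h | h | h | h | h | h | h | h | h | h <;> rw [h] <;> split_ifs <;>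
    first | rfl | omega

lemma gen_pow (p n : ℕ) : ((eta, Multiplicative.ofAdd 1) : C30 × Multiplicative (ZMod p)) ^ n =
    (eta ^ n, Multiplicative.ofAdd (n : ZMod p)) := by
  rw [Prod.pow_mk, ← ofAdd_nsmul, nsmul_one]

lemma inv_pow (p n : ℕ) : ((eta ^ 15, Multiplicative.ofAdd 0) : C30 × Multiplicative (ZMod p)) *
    (1, Multiplicative.ofAdd 1) ^ n = (eta ^ 15, Multiplicative.ofAdd (n : ZMod p)) := by
  rw [Prod.pow_mk, ← ofAdd_nsmul, nsmul_one, Prod.mk_mul_mk, one_pow, mul_one, ofAdd_zero, one_mul]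

lemma gen_pow_eq_one (p : ℕ) (hp : p ∣ 30) :
    ((eta, Multiplicative.ofAdd 1) : C30 × Multiplicative (ZMod p)) ^ 30 = 1 := by
  rw [gen_pow, eta_pow, (ZMod.natCast_eq_zero_iff 30 p).2 hp]; rfl

lemma inv_sq (p : ℕ) :
    ((eta ^ 15, Multiplicative.ofAdd 0) : C30 × Multiplicative (ZMod p)) ^ 2 = 1 := by
  rw [Prod.pow_mk, ← pow_mul, eta_pow, ofAdd_zero, one_pow]; rfl

lemma tr_pow (p : ℕ) :
    ((1, Multiplicative.ofAdd 1) : C30 × Multiplicative (ZMod p)) ^ p = 1 := by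
  rw [Prod.pow_mk, ← ofAdd_nsmul, nsmul_one, ZMod.natCast_self, one_pow]; rfl

theorem main_unit [Fact (Nat.Prime 5)] {F₃ F₅ : Type*} [Field F₃] [Finite F₃] [Algebra (ZMod 3) F₃]
    [Field F₅] [Finite F₅] [Algebra (ZMod 5) F₅] (h₃ : Module.finrank (ZMod 3) F₃ = 10)
    (h₅ : Module.finrank (ZMod 5) F₅ = 6) {G : Type*} [Group G]
    (X : Aff (rho 3 F₃ (by rw [h₃]; norm_num)) G) (Y : Aff (rho 5 F₅ (by rw [h₅]; norm_num)) G)
    (h1 : ∀ a, X.Cm (Y.τ a)) (h2 : ∀ c, X.Cm (Y.σ c)) (h3 : ∀ g, X.Cm (Y.γ g)) :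
    ∃ u : (MonoidAlgebra ℤ G)ˣ, u ^ 30 = 1 ∧ ∀ c : G → ℚ, (∀ g h, c (g * h) = c (h * g)) →
      cf c (inc G u) = c (X.τ 1 * X.γ eta * (Y.τ 1 * Y.γ eta)) +
        2 * (c (X.γ (eta ^ 15) * Y.γ (eta ^ 15)) -
          c (X.γ (eta ^ 15) * (Y.τ 1 * Y.γ (eta ^ 15))) -
          c (X.τ 1 * X.γ (eta ^ 15) * Y.γ (eta ^ 15)) +
          c (X.τ 1 * X.γ (eta ^ 15) * (Y.τ 1 * Y.γ (eta ^ 15)))) := by
  classical
  have := Fintype.ofFinite F₃
  have := Fintype.ofFinite F₅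
  have c3 : Fintype.card F₃ = 3 ^ 10 := by
    rw [Module.card_eq_pow_finrank (K := ZMod 3), ZMod.card, h₃]
  have c5 : Fintype.card F₅ = 5 ^ 6 := by
    rw [Module.card_eq_pow_finrank (K := ZMod 5), ZMod.card, h₅]
  let X' := X.map (of ℚ G)
  let Y' := Y.map (of ℚ G)
  have hm : ∀ z, X.Cm z → X'.Cm (of ℚ G z) := fun z hz =>
    ⟨fun a => (hz.1 a).map _, fun a => (hz.2.1 a).map _, fun a => (hz.2.2 a).map _⟩
  let SX := X'.sys (iota 3 F₃) (rho_iota 3 F₃ _)
  let SY := Y'.sys (iota 5 F₅) (rho_iota 5 F₅ _)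
  have hc : Comm SX SY := X'.comm_sys Y' (fun a => hm _ (h1 a)) (fun a => hm _ (h2 a))
    (fun a => hm _ (h3 a)) _ _ _ _
  have tX : ∀ (k : ℕ) (b : ZMod 3), (SX.pi (eta ^ k, Multiplicative.ofAdd b)).trace =
      if b = 0 then (3 : ℤ) ^ Nat.gcd 10 k - 1 else -1 := fun k b => by
    rw [← h₃]; exact trace_act 3 F₃ _ (by rw [h₃]; norm_num) k b
  have tY : ∀ (k : ℕ) (b : ZMod 5), (SY.pi (eta ^ k, Multiplicative.ofAdd b)).trace =
      if b = 0 then (5 : ℤ) ^ Nat.gcd 6 k - 1 else -1 := fun k b => by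
    rw [← h₅]; exact trace_act 5 F₅ _ (by rw [h₅]; norm_num) k b
  have e30 : eta ^ 30 = 1 := eta_pow
  obtain ⟨U, j₀, hU, tU, bU, bU'⟩ := exists_U5
    (of ℤ (C30 × Multiplicative (ZMod 3)) (eta, Multiplicative.ofAdd 1))
    (of ℤ _ (eta ^ 15, Multiplicative.ofAdd 0)) (of ℤ _ (1, Multiplicative.ofAdd 1))
    (by rw [← map_pow, gen_pow_eq_one _ (by norm_num), map_one])
    (by rw [← map_pow, inv_sq, map_one])
    (by rw [← map_pow, tr_pow, map_one]) {a : F₅ // a ≠ 0} (by simp [c5])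
  obtain ⟨V, i₀, hV, tV, bV, -⟩ := exists_U3
    (of ℤ (C30 × Multiplicative (ZMod 5)) (eta, Multiplicative.ofAdd 1))
    (of ℤ _ (eta ^ 15, Multiplicative.ofAdd 0)) (of ℤ _ (1, Multiplicative.ofAdd 1))
    (by rw [← map_pow, gen_pow_eq_one _ (by norm_num), map_one])
    (by rw [← map_pow, inv_sq, map_one])
    (by rw [← map_pow, tr_pow, map_one]) {a : F₃ // a ≠ 0} (by simp [c3])
  have tU' : ∀ n, (U ^ n).trace = (SY.pi ((eta, Multiplicative.ofAdd 1) ^ n)).trace •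
      of ℤ _ ((eta, Multiplicative.ofAdd 1) ^ n) + (250 * un n) •
      (of ℤ _ (eta ^ 15, Multiplicative.ofAdd 0) -
        of ℤ _ (eta ^ 15, Multiplicative.ofAdd (n : ZMod 3))) := by
    intro n
    rw [tU, ← map_pow, ← map_pow, ← map_mul, inv_pow, gen_pow 5, tY, gcd_six, chi5]
    simp only [ZMod.natCast_eq_zero_iff]
    congr 2
    split_ifs <;> norm_num
  have tV' : ∀ n, (V ^ n).trace = (SX.pi ((eta, Multiplicative.ofAdd 1) ^ n)).trace •
      of ℤ _ ((eta, Multiplicative.ofAdd 1) ^ n) + (486 * un n) •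
      (of ℤ _ (eta ^ 15, Multiplicative.ofAdd 0) -
        of ℤ _ (eta ^ 15, Multiplicative.ofAdd (n : ZMod 5))) := by
    intro n
    rw [tV, ← map_pow, ← map_pow, ← map_mul, inv_pow, gen_pow 3, tX, gcd_ten, chi3]
    simp only [ZMod.natCast_eq_zero_iff]
    congr 2
    split_ifs <;> norm_num
  have hE := hc.econj_uu 30 (eta, Multiplicative.ofAdd 1) (eta ^ 15, Multiplicative.ofAdd 0)
    (fun n => (eta ^ 15, Multiplicative.ofAdd (n : ZMod 3))) (eta, Multiplicative.ofAdd 1)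
    (eta ^ 15, Multiplicative.ofAdd 0) (fun n => (eta ^ 15, Multiplicative.ofAdd (n : ZMod 5)))
    rfl rfl (fun _ => rfl) (fun _ => rfl) (gen_pow_eq_one _ (by norm_num))
    (gen_pow_eq_one _ (by norm_num)) U V hU hV
    (fun n => 250 * un n) (fun n => 486 * un n) tU' tV' (fun n => by
      simp only [tX, tY, ZMod.natCast_eq_zero_iff, un]
      by_cases h3 : 3 ∣ n <;> by_cases h5 : 5 ∣ n <;> by_cases h2 : 2 ∣ n <;>
        simp [h2, h3, h5]) i₀ ⟨1, one_ne_zero⟩ j₀ bU bU' bV (fun i hi => by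
      have hi' : i.1 ≠ 1 := fun h => hi (Subtype.ext h)
      change piv (Aff.act _ _ _) _ _ = 0 ∧ piv (Aff.act _ _ _) _ _ = 0
      simp only [piv_apply, Aff.act_apply, toAdd_ofAdd, map_zero, add_zero, map_one]
      rw [if_neg one_ne_zero, if_neg hi', if_neg i.2, if_neg]
      · simp
      · intro h
        exact hi' ((map_eq_one_iff _ (RingEquiv.injective _)).1 h.symm))
  have q5 : ((Fintype.card F₅ : ℚ)⁻¹ • (1 : MonoidAlgebra ℚ G)) ∈
      loc (inc G).range (Submonoid.powers 5) := ⟨5 ^ 6, ⟨6, rfl⟩, by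
    rw [← Int.cast_smul_eq_zsmul ℚ, smul_smul, c5]
    norm_num⟩
  have q3 : ((Fintype.card F₃ : ℚ)⁻¹ • (1 : MonoidAlgebra ℚ G)) ∈
      loc (inc G).range cop5 := ⟨3 ^ 10, (show IsCoprime (3 ^ 10 : ℤ) 5 by norm_num), by
    rw [← Int.cast_smul_eq_zsmul ℚ, smul_smul, c3]
    norm_num⟩
  have om : ∀ (M : Submonoid ℤ) (g : G), of ℚ G g ∈ loc (inc G).range M :=
    fun M g => le_loc _ _ (of_mem g)
  obtain ⟨t, u₀, hu₀⟩ := glue (inc G).range exists_den hE
    (hc.uu_mem _ (fun x => mul_mem (om _ _) (om _ _))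
      (fun g => Y'.fl_mem _ q5 (fun _ => om _ _) (fun _ => om _ _) (fun _ => om _ _) g)
      (fun c d => Y'.e_mem _ q5 (fun _ => om _ _) (fun _ => om _ _) _ _) _ _)
    (hc.symm.uu_mem _ (fun x => mul_mem (om _ _) (om _ _))
      (fun g => X'.fl_mem _ q3 (fun _ => om _ _) (fun _ => om _ _) (fun _ => om _ _) g)
      (fun c d => X'.e_mem _ q3 (fun _ => om _ _) (fun _ => om _ _) _ _) _ _)
  have hu30 : u₀ ^ 30 = 1 := by
    apply inc_injective
    rw [map_pow, hu₀, Units.conj_pow, hc.uu_pow, hU, ← map_pow,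
      gen_pow_eq_one _ (by norm_num),
      map_one, hc.uu_one, map_one]
    simp
  refine ⟨Units.ofPowEqOne u₀ 30 hu30 (by norm_num), Units.ext ?_, fun c hcc => ?_⟩
  · rw [Units.val_pow_eq_pow_val]; exact hu30
  change cf c (inc G u₀) = _
  rw [hu₀, cf_comm c hcc, ← mul_assoc, Units.inv_mul, one_mul,
    hc.trace_formula (cf c) (cf_comm c hcc) j₀ _ (eta ^ 15, Multiplicative.ofAdd 0)
      (eta ^ 15, Multiplicative.ofAdd 1) (eta, Multiplicative.ofAdd 1)
      (eta ^ 15, Multiplicative.ofAdd 0) (eta ^ 15, Multiplicative.ofAdd 1) rfl rfl rfl rfl U 2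
      (by
        have := tU' 1
        rw [pow_one, pow_one, pow_one, Nat.cast_one] at this
        rw [this, tY, tY, if_pos rfl, if_neg one_ne_zero]
        rfl)]
  have dX : ∀ g b, SX.dl (g, Multiplicative.ofAdd b) = of ℚ G (X.τ (iota 3 F₃ b) * X.γ g) :=
    fun g b => (map_mul (of ℚ G) _ _).symm
  have dY : ∀ g b, SY.dl (g, Multiplicative.ofAdd b) = of ℚ G (Y.τ (iota 5 F₅ b) * Y.γ g) :=
    fun g b => (map_mul (of ℚ G) _ _).symm
  have i3 : iota 3 F₃ 1 = 1 := map_one (algebraMap (ZMod 3) F₃)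
  have i5 : iota 5 F₅ 1 = 1 := map_one (algebraMap (ZMod 5) F₅)
  simp only [dX, dY, i3, i5, map_zero, X.τ_zero, Y.τ_zero, one_mul, of_apply, single_mul_single,
    cf_single]
  simp only [zsmul_eq_mul, Int.cast_ofNat]

end Pool.Agent.Lib.MP_902cec_al
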