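import Pool.Agent.Lib.MP_902cec_al.Aff

set_option autoImplicit false

namespace Pool.Agent.Lib.MP_902cec_al

open Kronecker

variable {R : Type*} [CommRing R]

/-- `t` is the sequence of traces of powers of a matrix of size `n` and order dividing thirty. -/
def Rl (n : ℕ) (t : ℕ → R) : Prop :=
  ∃ (J : Type) (_ : Fintype J) (_ : DecidableEq J) (U : Matrix J J R),
    Fintype.card J = n ∧ U ^ 30 = 1 ∧ ∀ k, (U ^ k).trace = t k

namespace Rl

lemma scalar (r : R) (hr : r ^ 30 = 1) : Rl 1 fun k => r ^ k :=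
  ⟨Unit, inferInstance, inferInstance, Matrix.scalar Unit r, rfl, by rw [← map_pow, hr, map_one],
    fun k => by rw [← map_pow]; simp⟩

lemma trace_blocks {J K : Type*} [Fintype J] [Fintype K] (U : Matrix J J R) (V : Matrix K K R) :
    (Matrix.fromBlocks U 0 0 V).trace = U.trace + V.trace := by
  simp [Matrix.trace, Fintype.sum_sum_type]

lemma add {n m : ℕ} {t s : ℕ → R} (h : Rl n t) (h' : Rl m s) : Rl (n + m) fun k => t k + s k := by
  obtain ⟨J, _, _, U, h1, h2, h3⟩ := h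
  obtain ⟨K, _, _, V, h4, h5, h6⟩ := h'
  refine ⟨J ⊕ K, inferInstance, inferInstance, Matrix.fromBlocks U 0 0 V, by simp [h1, h4], ?_,
    fun k => ?_⟩
  · rw [Matrix.fromBlocks_diagonal_pow, h2, h5, Matrix.fromBlocks_one]
  · rw [Matrix.fromBlocks_diagonal_pow, trace_blocks, h3, h6]

lemma mul {n m : ℕ} {t s : ℕ → R} (h : Rl n t) (h' : Rl m s) : Rl (n * m) fun k => t k * s k := by
  obtain ⟨J, _, _, U, h1, h2, h3⟩ := h
  obtain ⟨K, _, _, V, h4, h5, h6⟩ := h'
  have : ∀ k, (U ⊗ₖ V) ^ k = (U ^ k) ⊗ₖ (V ^ k) := by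
    intro k
    induction k with
    | zero => simp
    | succ k ih => rw [pow_succ, pow_succ, pow_succ, ih, Matrix.mul_kronecker_mul]
  refine ⟨J × K, inferInstance, inferInstance, U ⊗ₖ V, by simp [h1, h4], ?_, fun k => ?_⟩
  · rw [this, h2, h5, Matrix.one_kronecker_one]
  · rw [this, Matrix.trace_kronecker, h3, h6]

lemma const (c : ℕ) : Rl c fun _ => (c : R) :=
  ⟨Fin c, inferInstance, inferInstance, 1, by simp, by simp, fun k => by simp⟩

lemma xi (d : ℕ) [NeZero d] (hd : d ∣ 30) :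
    Rl (d - 1) fun k => if d ∣ k then (d : R) - 1 else -1 := by
  let p : Function.End (ZMod d) := fun t => t + 1
  have hp : ∀ (k : ℕ) (t : ZMod d), (p ^ k) t = t + k := by
    intro k
    induction k with
    | zero => intro t; simp; rfl
    | succ k ih =>
      intro t
      rw [pow_succ']
      change (p ^ k) t + 1 = _
      rw [ih, Nat.cast_succ, add_assoc]
  have h30 : p ^ 30 = 1 := by
    funext t
    rw [hp, (ZMod.natCast_eq_zero_iff 30 d).2 hd, add_zero]
    rfl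
  refine ⟨{a : ZMod d // a ≠ 0}, inferInstance, inferInstance,
    (Int.castRingHom R).mapMatrix (piv p), by simp, ?_, fun k => ?_⟩
  · rw [← map_pow, ← map_pow, h30, map_one, map_one]
  · rw [← map_pow, ← map_pow, RingHom.mapMatrix_apply, ← AddMonoidHom.map_trace, trace_piv]
    simp only [hp, add_eq_left, ZMod.natCast_eq_zero_iff]
    split_ifs with h <;> simp [h]

lemma congr {n m : ℕ} {t s : ℕ → R} (h : Rl n t) (h1 : n = m) (h2 : ∀ k, t k = s k) : Rl m s := by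
  rw [← h1, ← funext h2]; exact h

lemma block {n : ℕ} {t : ℕ → R} (h : Rl n t) (x : R) (hx : x ^ 30 = 1) (I : Type*) [Fintype I]
    [DecidableEq I] (hI : Fintype.card I = n + 1) :
    ∃ (U : Matrix I I R) (i₀ : I), U ^ 30 = 1 ∧ (∀ k, (U ^ k).trace = x ^ k + t k) ∧
      (∀ i, i ≠ i₀ → U i₀ i = 0 ∧ U i i₀ = 0) ∧ U i₀ i₀ = x := by
  obtain ⟨J, _, _, U, h1, h2, h3⟩ := h
  let e : Unit ⊕ J ≃ I := Fintype.equivOfCardEq (by simp [h1, hI, add_comm])
  let φ := Matrix.reindexAlgEquiv R R e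
  have hφ : ∀ M, (φ M).trace = M.trace := fun M =>
    (Fintype.sum_equiv e _ _ fun i => by simp [φ]).symm
  refine ⟨φ (Matrix.fromBlocks (Matrix.scalar Unit x) 0 0 U), e (Sum.inl ()), ?_, fun k => ?_,
    fun i hi => ?_, by simp [φ]⟩
  · rw [← map_pow, Matrix.fromBlocks_diagonal_pow, h2, ← map_pow, hx, map_one,
      Matrix.fromBlocks_one, map_one]
  · rw [← map_pow, hφ, Matrix.fromBlocks_diagonal_pow, trace_blocks, h3, ← map_pow]
    simp
  · obtain ⟨j, rfl⟩ := e.surjective i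
    rcases j with j | j
    · exact absurd rfl hi
    · simp [φ]

end Rl

/-- The indicator of the units modulo thirty. -/
def un (k : ℕ) : ℤ := if ¬ 2 ∣ k ∧ ¬ 3 ∣ k ∧ ¬ 5 ∣ k then 1 else 0

/-- The character value on the side of characteristic five. -/
def chi5 (k : ℕ) : ℤ :=
  if 5 ∣ k then (if 2 ∣ k then (if 3 ∣ k then 15624 else 24) else (if 3 ∣ k then 124 else 4))
  else -1

/-- The character value on the side of characteristic three. -/
def chi3 (k : ℕ) : ℤ :=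
  if 3 ∣ k then (if 2 ∣ k then (if 5 ∣ k then 59048 else 8) else (if 5 ∣ k then 242 else 2))
  else -1

lemma pow_of_sq {x : R} (hx : x ^ 2 = 1) (k : ℕ) : x ^ k = if 2 ∣ k then 1 else x := by
  split_ifs with h
  · obtain ⟨j, rfl⟩ := h
    rw [pow_mul, hx, one_pow]
  · obtain ⟨j, rfl⟩ := Nat.not_even_iff_odd.1 (fun h' => h (even_iff_two_dvd.1 h'))
    rw [pow_succ, pow_mul, hx, one_pow, one_mul]

lemma pow_of_dvd {x : R} {p : ℕ} (hx : x ^ p = 1) {k : ℕ} (h : p ∣ k) : x ^ k = 1 := by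
  obtain ⟨j, rfl⟩ := h
  rw [pow_mul, hx, one_pow]

theorem exists_U5 (h x t : R) (hh : h ^ 30 = 1) (hx : x ^ 2 = 1) (ht : t ^ 3 = 1) (J : Type*)
    [Fintype J] [DecidableEq J] (hJ : Fintype.card J = 15624) :
    ∃ (U : Matrix J J R) (j₀ : J), U ^ 30 = 1 ∧
      (∀ k, (U ^ k).trace = chi5 k • h ^ k + (250 * un k) • (x - x * t ^ k)) ∧
      (∀ j, j ≠ j₀ → U j₀ j = 0 ∧ U j j₀ = 0) ∧ U j₀ j₀ = x := by
  have hx30 : x ^ 30 = 1 := pow_of_dvd hx (by norm_num)
  have ht30 : t ^ 30 = 1 := pow_of_dvd ht (by norm_num)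
  have one := Rl.const (R := R) 1
  have s := Rl.scalar (-1 : R) (by norm_num)
  have x3 := Rl.xi (R := R) 3 (by norm_num)
  have x5 := Rl.xi (R := R) 5 (by norm_num)
  have r2 := one.add s
  have r3 := one.add x3
  have r5 := one.add x5
  have a0 := (Rl.const 4).add (s.mul x5)
  have a1 := ((Rl.const 4).mul s).add x5
  have P0 := ((x5.add ((Rl.const 2).mul (r2.mul r5))).add ((Rl.const 8).mul (r3.mul r5))).add
    ((Rl.const 416).mul ((r2.mul r3).mul r5))
  have P1 := (Rl.const 99).add ((Rl.const 25).mul (((s.mul x5).add (x3.mul a1)).add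
    ((Rl.const 3).mul ((r2.mul r3).mul x5))))
  have P2 := (Rl.const 25).mul (a1.add (x3.mul a0))
  have T := (((Rl.scalar h hh).mul P0).add ((Rl.scalar x hx30).mul P1)).add
    (((Rl.scalar x hx30).mul (Rl.scalar t ht30)).mul P2)
  obtain ⟨U, j₀, h1, h2, h3, h4⟩ := T.block x hx30 J hJ
  refine ⟨U, j₀, h1, fun k => ?_, h3, h4⟩
  rw [h2, pow_of_sq hx, pow_of_sq (x := (-1 : R)) (by norm_num), chi5, un]
  by_cases h3 : 3 ∣ k
  · rw [pow_of_dvd ht h3]
    by_cases h2 : 2 ∣ k <;> by_cases h5 : 5 ∣ k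
    · rw [pow_of_dvd hh (show 30 ∣ k by omega)]
      simp [h2, h3, h5]
      ring
    all_goals (simp [h2, h3, h5]; ring)
  · by_cases h2 : 2 ∣ k <;> by_cases h5 : 5 ∣ k <;> simp [h2, h3, h5] <;> ring

theorem exists_U3 (h x t : R) (hh : h ^ 30 = 1) (hx : x ^ 2 = 1) (ht : t ^ 5 = 1) (J : Type*)
    [Fintype J] [DecidableEq J] (hJ : Fintype.card J = 59048) :
    ∃ (U : Matrix J J R) (j₀ : J), U ^ 30 = 1 ∧
      (∀ k, (U ^ k).trace = chi3 k • h ^ k + (486 * un k) • (x - x * t ^ k)) ∧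
      (∀ j, j ≠ j₀ → U j₀ j = 0 ∧ U j j₀ = 0) ∧ U j₀ j₀ = x := by
  have hx30 : x ^ 30 = 1 := pow_of_dvd hx (by norm_num)
  have ht30 : t ^ 30 = 1 := pow_of_dvd ht (by norm_num)
  have one := Rl.const (R := R) 1
  have s := Rl.scalar (-1 : R) (by norm_num)
  have x3 := Rl.xi (R := R) 3 (by norm_num)
  have x5 := Rl.xi (R := R) 5 (by norm_num)
  have r2 := one.add s
  have r3 := one.add x3
  have r5 := one.add x5
  have b0 := (Rl.const 2).add (s.mul x3)
  have b1 := ((Rl.const 2).mul s).add x3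
  have P0 := ((x3.add (r2.mul r3)).add ((Rl.const 16).mul (r3.mul r5))).add
    ((Rl.const 1798).mul ((r2.mul r3).mul r5))
  have P1 := (Rl.const 161).add ((Rl.const 81).mul (((s.mul x3).add (x5.mul b1)).add
    ((r5.mul r2).mul x3)))
  have P2 := (Rl.const 81).mul (b1.add (x5.mul b0))
  have T := (((Rl.scalar h hh).mul P0).add ((Rl.scalar x hx30).mul P1)).add
    (((Rl.scalar x hx30).mul (Rl.scalar t ht30)).mul P2)
  obtain ⟨U, j₀, h1, h2, h3, h4⟩ := T.block x hx30 J hJ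
  refine ⟨U, j₀, h1, fun k => ?_, h3, h4⟩
  rw [h2, pow_of_sq hx, pow_of_sq (x := (-1 : R)) (by norm_num), chi3, un]
  by_cases h5 : 5 ∣ k
  · rw [pow_of_dvd ht h5]
    by_cases h2 : 2 ∣ k <;> by_cases h3 : 3 ∣ k
    · rw [pow_of_dvd hh (show 30 ∣ k by omega)]
      simp [h2, h3, h5]
      ring
    all_goals (simp [h2, h3, h5]; ring)
  · by_cases h2 : 2 ∣ k <;> by_cases h3 : 3 ∣ k <;> simp [h2, h3, h5] <;> ring

end Pool.Agent.Lib.MP_902cec_al
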