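import Mathlib

set_option autoImplicit false

namespace Pool.Agent.Lib.MP_902cec_al

open Module

universe u

section Rep

variable {K : Type*} [Field K] [CharZero K] {G : Type*} [Group G] [Fintype G]

omit [CharZero K] [Fintype G] in
lemma char_add_of_isCompl {V : Type u} [AddCommGroup V] [Module K V] [FiniteDimensional K V]
    (ρ : Representation K G V) (p q : Subrepresentation ρ)
    (h : IsCompl p.toSubmodule q.toSubmodule) (g : G) :
    ρ.character g = p.toRepresentation.character g + q.toRepresentation.character g := by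
  unfold Representation.character
  rw [← LinearMap.trace_prodMap',
    ← LinearMap.trace_conj' _ (Submodule.prodEquivOfIsCompl _ _ h)]
  congr 1
  apply LinearMap.ext
  intro v
  obtain ⟨w, rfl⟩ := (Submodule.prodEquivOfIsCompl _ _ h).surjective v
  rw [LinearEquiv.conj_apply_apply, LinearEquiv.symm_apply_apply]
  simp [Submodule.coe_prodEquivOfIsCompl', Subrepresentation.toRepresentation]

lemma isCompl_toSubmodule {V : Type u} [AddCommGroup V] [Module K V]
    (ρ : Representation K G V) (p : Subrepresentation ρ) :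
    ∃ q : Subrepresentation ρ, IsCompl p.toSubmodule q.toSubmodule := by
  have : NeZero (Nat.card G : K) := ⟨by exact_mod_cast (Nat.card_pos (α := G)).ne'⟩
  obtain ⟨q, hq⟩ := exists_isCompl p
  refine ⟨q, ?_, ?_⟩
  · rw [disjoint_iff, ← Subrepresentation.toSubmodule_inf, disjoint_iff.1 hq.1]; rfl
  · rw [codisjoint_iff, ← Subrepresentation.toSubmodule_sup, codisjoint_iff.1 hq.2]; rfl

theorem exists_equiv_of_char_eq (n : ℕ) : ∀ (V W : Type u) [AddCommGroup V] [Module K V]
    [FiniteDimensional K V] [AddCommGroup W] [Module K W] [FiniteDimensional K W]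
    (ρ : Representation K G V) (σ : Representation K G W), finrank K V = n →
    ρ.character = σ.character → ∃ e : V ≃ₗ[K] W, ∀ g v, e (ρ g v) = σ g (e v) := by
  induction n using Nat.strong_induction_on with
  | _ n ih =>
  intro V W _ _ _ _ _ _ ρ σ hn hχ
  have hVW : finrank K V = finrank K W := by
    have := congrFun hχ 1
    rw [Representation.char_one, Representation.char_one] at this
    exact_mod_cast this
  rcases Nat.eq_zero_or_pos n with h0 | hpos
  · have hW : Subsingleton W := Module.finrank_zero_iff.1 (hVW ▸ hn.trans h0)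
    exact ⟨LinearEquiv.ofFinrankEq V W hVW, fun _ _ => Subsingleton.elim _ _⟩
  have : Invertible (Nat.card G : K) :=
    invertibleOfNonzero (by exact_mod_cast (Nat.card_pos (α := G)).ne')
  have h1 := Representation.card_inv_mul_sum_char_mul_char_eq_finrank ρ σ
  have h2 := Representation.card_inv_mul_sum_char_mul_char_eq_finrank ρ ρ
  rw [← hχ, h2] at h1
  have h3 : finrank K (Representation.IntertwiningMap ρ ρ) =
      finrank K (Representation.IntertwiningMap ρ σ) := by exact_mod_cast h1
  have : Nontrivial V := Module.finrank_pos_iff.1 (hn ▸ hpos)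
  have : FiniteDimensional K (Representation.IntertwiningMap ρ ρ) :=
    Module.Finite.equiv (Representation.invariantsEquivIntertwiningMap ρ ρ)
  have hnt : Nontrivial (Representation.IntertwiningMap ρ ρ) := by
    refine ⟨⟨Representation.IntertwiningMap.id ρ, 0, fun h => ?_⟩⟩
    obtain ⟨v, hv⟩ := exists_ne (0 : V)
    exact hv (by simpa using congrArg (fun φ => φ v) h)
  have hpos' : 0 < finrank K (Representation.IntertwiningMap ρ σ) :=
    h3 ▸ Module.finrank_pos
  have : Nontrivial (Representation.IntertwiningMap ρ σ) := Module.nontrivial_of_finrank_pos hpos'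
  obtain ⟨φ, hφ⟩ := exists_ne (0 : Representation.IntertwiningMap ρ σ)
  obtain ⟨q, hq⟩ := isCompl_toSubmodule ρ φ.ker
  obtain ⟨r, hr⟩ := isCompl_toSubmodule σ φ.range
  -- the restriction of `φ` to `q` is an equivalence onto the range
  let ψ : q.toSubmodule →ₗ[K] φ.range.toSubmodule :=
    (φ.toLinearMap.domRestrict q.toSubmodule).codRestrict _ (fun v => ⟨v, rfl⟩)
  have hψ : Function.Bijective ψ := by
    constructor
    · rw [← LinearMap.ker_eq_bot, Submodule.eq_bot_iff]
      intro v hv
      have hv' : (v : V) ∈ φ.ker.toSubmodule := congrArg Subtype.val hv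
      exact Subtype.ext (Submodule.disjoint_def.1 hq.1 v hv' v.2)
    · rintro ⟨w, v, rfl⟩
      obtain ⟨a, ha, b, hb, rfl⟩ := Submodule.mem_sup.1
        (show v ∈ φ.ker.toSubmodule ⊔ q.toSubmodule from codisjoint_iff.1 hq.2 ▸ trivial)
      refine ⟨⟨b, hb⟩, Subtype.ext ?_⟩
      have ha' : φ.toLinearMap a = 0 := ha
      change φ.toLinearMap b = φ.toLinearMap (a + b)
      rw [map_add, ha', zero_add]
  let e1 := LinearEquiv.ofBijective ψ hψ
  have he1 : ∀ g v, e1 (q.toRepresentation g v) = φ.range.toRepresentation g (e1 v) := by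
    intro g v
    apply Subtype.ext
    exact φ.isIntertwining ρ σ g v
  have hc1 : q.toRepresentation.character = φ.range.toRepresentation.character := by
    funext g
    unfold Representation.character
    rw [← LinearMap.trace_conj' _ e1]
    congr 1
    apply LinearMap.ext
    intro w
    obtain ⟨v, rfl⟩ := e1.surjective w
    rw [LinearEquiv.conj_apply_apply, LinearEquiv.symm_apply_apply, he1]
  have hc0 : φ.ker.toRepresentation.character = r.toRepresentation.character := by
    funext g
    have a1 := char_add_of_isCompl ρ φ.ker q hq g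
    have a2 := char_add_of_isCompl σ φ.range r hr g
    rw [← hχ, a1, hc1, add_comm] at a2
    exact add_left_cancel a2
  have hlt : finrank K φ.ker.toSubmodule < n := by
    rw [← hn]
    apply Submodule.finrank_lt
    intro htop
    apply hφ
    apply Representation.IntertwiningMap.ext
    apply LinearMap.ext
    intro v
    have : v ∈ φ.ker.toSubmodule := htop ▸ trivial
    exact this
  obtain ⟨e0, he0⟩ := ih _ hlt _ _ _ _ rfl hc0
  refine ⟨(Submodule.prodEquivOfIsCompl _ _ hq).symm.trans ((e0.prodCongr e1).trans
    (Submodule.prodEquivOfIsCompl _ _ hr.symm)), ?_⟩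
  intro g v
  obtain ⟨⟨a, b⟩, rfl⟩ := (Submodule.prodEquivOfIsCompl _ _ hq).surjective v
  have : ρ g (Submodule.prodEquivOfIsCompl _ _ hq (a, b)) =
      Submodule.prodEquivOfIsCompl _ _ hq (φ.ker.toRepresentation g a, q.toRepresentation g b) := by
    simp [Submodule.coe_prodEquivOfIsCompl', Subrepresentation.toRepresentation]
  rw [this]
  simp only [LinearEquiv.trans_apply, LinearEquiv.symm_apply_apply, LinearEquiv.prodCongr_apply,
    he0, he1]
  simp only [Submodule.coe_prodEquivOfIsCompl', map_add]
  rfl

end Rep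

/-- The homomorphism from a cyclic group determined by an element of finite order. -/
def cyc {M : Type*} [Monoid M] (n : ℕ) [NeZero n] (φ : M) (h : φ ^ n = 1) :
    Multiplicative (ZMod n) →* M where
  toFun k := φ ^ (Multiplicative.toAdd k).val
  map_one' := by simp
  map_mul' a b := by
    rw [toAdd_mul, ZMod.val_add, ← pow_eq_pow_mod _ h, pow_add]

lemma cyc_apply {M : Type*} [Monoid M] (n : ℕ) [NeZero n] (φ : M) (h : φ ^ n = 1)
    (k : Multiplicative (ZMod n)) : cyc n φ h k = φ ^ (Multiplicative.toAdd k).val := rfl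

lemma cyc_gen {M : Type*} [Monoid M] (n : ℕ) [NeZero n] (φ : M) (h : φ ^ n = 1) :
    cyc n φ h (Multiplicative.ofAdd 1) = φ := by
  rw [cyc_apply, toAdd_ofAdd, ZMod.val_one_eq_one_mod, ← pow_eq_pow_mod _ h, pow_one]

theorem exists_conj_of_trace_pow {K : Type*} [Field K] [CharZero K] {n : Type*} [Fintype n]
    [DecidableEq n] (m : ℕ) [NeZero m] (M M' : Matrix n n K) (hM : M ^ m = 1) (hM' : M' ^ m = 1)
    (htr : ∀ k : ℕ, (M ^ k).trace = (M' ^ k).trace) :
    ∃ P Q : Matrix n n K, P * Q = 1 ∧ Q * P = 1 ∧ P * M = M' * P := by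
  let T : Matrix n n K →* Module.End K (n → K) := Matrix.toLinAlgEquiv'.toMonoidHom
  have hT : ∀ N, T N = Matrix.toLin' N := fun _ => rfl
  let ρ : Representation K (Multiplicative (ZMod m)) (n → K) := T.comp (cyc m M hM)
  let σ : Representation K (Multiplicative (ZMod m)) (n → K) := T.comp (cyc m M' hM')
  obtain ⟨e, he⟩ := exists_equiv_of_char_eq (K := K) _ _ _ ρ σ rfl (by
    funext g
    simp only [Representation.character, ρ, σ, MonoidHom.comp_apply, hT, cyc_apply,
      Matrix.trace_toLin'_eq, htr])
  have he' := he (Multiplicative.ofAdd 1)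
  simp only [ρ, σ, MonoidHom.comp_apply, cyc_gen, hT] at he'
  refine ⟨LinearMap.toMatrix' e.toLinearMap, LinearMap.toMatrix' e.symm.toLinearMap, ?_, ?_, ?_⟩
  · rw [← LinearMap.toMatrix'_comp]; simp
  · rw [← LinearMap.toMatrix'_comp]; simp
  · apply Matrix.toLin'.injective
    rw [Matrix.toLin'_mul, Matrix.toLin'_mul, Matrix.toLin'_toMatrix']
    exact LinearMap.ext he'

end Pool.Agent.Lib.MP_902cec_al
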